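import Mathlib

/-!
Nonvanishing (the case `A = 0`) implies the Campana-Peternell conjecture.

Let `(Y, Γ + S + Δ)` be a projective `ℚ`-factorial dlt pair over `ℂ`, `Γ` and `S` reduced and
`⌊Δ⌋ = 0`, such that `L = K_Y + Γ + S + Δ` is nef, `L` is `ℚ`-linearly equivalent to an effective
`D'` with `Supp D' = Γ`, and `L|_Γ` is semiample.  We prove that the fibration `f : Γ → Z` defined
by `L|_Γ` extends to the formal neighbourhood of `Γ` in `Y` (`FormalNbhd.exts`).  So its fibres
move in `Y`, and `κ(L)` is the numerical dimension of `L`.  By induction on the dimension,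
abundance follows from nonvanishing, and so does the Campana-Peternell conjecture.

Conventions used in the comments.  `m > 0` is sufficiently divisible, `τ` is a section of `mL` with
divisor `mD'`, `mL|_Γ = f^*H` with `H` ample on `Z`, and `f_* O_Γ = O_Z`.  `π : W → Y` is a log
resolution which is an isomorphism over the general points of the strata of `S` (Szabó), `Σ ⊂ W`
is the inverse image of `Γ`, `S_W` the strict transform of `S`, `n = dim Y`.  Since `L` and `D'` are
`ℚ`-linearly equivalent, there is a form `s` of degree `n` with values in a local system of rank one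
and of finite order, with divisor `D' - Δ` on `Y` (as a form with logarithmic poles on `Γ + S`).
All the forms below have values in this local system; they have logarithmic poles on `Σ` and
`S_W`, and along the other components they belong to the minimal extension.  A form on `W` has
order `≥ ρ` if, as a form with logarithmic poles, it vanishes on `Σ` to the order `ρπ^*D'`; `V^ρ Ω^p`
is the sheaf of the holomorphic forms of degree `p` and of order `≥ ρ`.  The positive integer `N` is
a multiple of all denominators: `V^ρ` and `O_Y(-⌈ρD'⌉)` only jump at multiples of `1/N`.  Let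
`I_k = O_Y(-⌈(k/N)D'⌉)`; thus `I_0 = O_Y`, `I_1 = O_Y(-Γ)` and `I_j I_k ⊂ I_{j+k}`.

Since `(Y, Γ + S + Δ)` is log canonical, `s` has order `≥ 1`.  Since `(Y, S + Δ)` is dlt, the
vanishing theorem of Kawamata and Viehweg (as generalised by Reid and Fukuda: every stratum of
`S_W` is birational to a stratum of `S`) gives `Rπ_*(V^{1+k/N} Ω^n) = I_k s` for `k ≥ 0`, hence the
same for `I_k/I_{k+1}` and the `k`-th graded piece.

`D` is a small Stein open subset of `Z`, which is a closed analytic subset of a polydisc with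
coordinates `x_1, ..., x_r`, `r > 0`; `e_D` is a generator of `H` over `D`; `Γ_D = f⁻¹(D)`, and
`Σ_D = π⁻¹(Γ_D)`.
-/

noncomputable section

namespace Pool.NVS.Old

/-- The commutative ring `ℂ[∂_1, ..., ∂_r, ∂_ℓ]`. -/
def Ops (r : ℕ) : Type := MvPolynomial (Option (Fin r)) ℂ

instance Ops.ring (r : ℕ) : CommRing (Ops r) :=
  inferInstanceAs (CommRing (MvPolynomial (Option (Fin r)) ℂ))

instance Ops.alg (r : ℕ) : Algebra ℂ (Ops r) :=
  inferInstanceAs (Algebra ℂ (MvPolynomial (Option (Fin r)) ℂ))

/-- The variables: `∂_ℓ` for `o = none`, and `∂_i` for `o = some i`. -/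
def Ops.X {r : ℕ} (o : Option (Fin r)) : Ops r := MvPolynomial.X o

/-- The variable `∂_i`. -/
def Ops.der {r : ℕ} (i : Fin r) : Ops r := Ops.X (some i)

/-- The operator `∂_ℓ - c`. -/
def Ops.E (r c : ℕ) : Ops r := Ops.X none - (c : Ops r)

/-- Smooth differential forms on `W` near `Σ_D`. -/
structure Forms where
  /-- The smooth forms of all degrees near `Σ_D`, with values in the local system, with
  logarithmic poles on `Σ` and `S_W`, and in the minimal extension across the other components. -/
  Ω : Type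
  [grp : AddCommGroup Ω]
  [mod : Module ℂ Ω]
  /-- The exterior derivative. -/
  d : Module.End ℂ Ω
  d_d : ∀ z, d (d z) = 0
  /-- The closed smooth forms of degree one (with values in `ℂ`, with logarithmic poles on `Σ`). -/
  One : Type
  /-- The exterior product with such a form. -/
  w : One → Module.End ℂ Ω
  d_w : ∀ a z, d (w a z) = -w a (d z)
  w_w : ∀ a b z, w a (w b z) = -w b (w a z)
  /-- `V k` is the space of the forms of order `≥ 1 + k/N`. -/
  V : ℕ → Submodule ℂ Ω
  V_succ : ∀ k, V (k + 1) ≤ V k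
  /-- The form `s` of type `(n, 0)`. -/
  s : Ω
  s_V : s ∈ V 0
  d_s : d s = 0

attribute [instance] Forms.grp Forms.mod

/-- The space `Ω[∂_1, ..., ∂_r, ∂_ℓ]δ` of the polynomials with coefficients in `Ω`. -/
def Forms.K (F : Forms) (r : ℕ) : Type := TensorProduct ℂ (Ops r) F.Ω

instance Forms.K.grp (F : Forms) (r : ℕ) : AddCommGroup (F.K r) :=
  inferInstanceAs (AddCommGroup (TensorProduct ℂ (Ops r) F.Ω))

instance Forms.K.mod (F : Forms) (r : ℕ) : Module (Ops r) (F.K r) :=
  inferInstanceAs (Module (Ops r) (TensorProduct ℂ (Ops r) F.Ω))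

/-- The element `zδ`. -/
def Forms.one (F : Forms) (r : ℕ) (z : F.Ω) : F.K r := TensorProduct.tmul ℂ (1 : Ops r) z

/-- The action of a linear map on the coefficients. -/
def Forms.map (F : Forms) (r : ℕ) (f : Module.End ℂ F.Ω) : Module.End (Ops r) (F.K r) :=
  f.baseChange (Ops r)

/-- The polynomials with coefficients in `V k`. -/
def Forms.fil (F : Forms) (r k : ℕ) : Submodule (Ops r) (F.K r) := (F.V k).baseChange (Ops r)

/-- The differential `d - ∑ ∂_i θ_i ∧ - ∂_ℓ θ_ℓ ∧` of `Ω[∂_1, ..., ∂_r, ∂_ℓ]δ`.  For `θ_i = dt_i` and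
`θ_ℓ = dℓ` with holomorphic `t_i` and `ℓ` this is the (smooth) de Rham complex of the direct image
under the graph of `(t, ℓ)`.  For smooth `t_i`, `ℓ` as in `Lifts` it is the complex obtained by
glueing: `δ = δ(x - t)` is replaced on `U_α` by `δ_α = δ(x - t_α)`, and
`δ_α = exp(-∑ (t_{α,i} - t_{β,i})∂_i - (ℓ_α - ℓ_β)∂_ℓ)δ_β`. -/
def Forms.D (F : Forms) {r : ℕ} (θ : Option (Fin r) → F.One) : Module.End (Ops r) (F.K r) :=
  F.map r F.d - ∑ o, (Ops.X o : Ops r) • F.map r (F.w (θ o))

/-- For every `k ≥ 0` the operator `∂_ℓ - (N + k)` is nilpotent on the cohomology of the `k`-th graded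
piece `V^{1+k/N}/V^{1+(k+1)/N}` of `Ω[∂_1, ..., ∂_r, ∂_ℓ]δ`. -/
def Forms.Nilpotent (F : Forms) {r : ℕ} (θ : Option (Fin r) → F.One) (N : ℕ) : Prop :=
  ∀ k, ∀ z ∈ F.fil r k, F.D θ z ∈ F.fil r (k + 1) →
    ∃ (n : ℕ) (w : F.K r), Ops.E r (N + k) ^ n • z - F.D θ w ∈ F.fil r (k + 1)

/-- The elements of `V^{1+k/N}` which are coboundaries modulo `V^{1+(k+1)/N}`. -/
def Forms.bd (F : Forms) {r : ℕ} (θ : Option (Fin r) → F.One) (k : ℕ) :
    Submodule (Ops r) (F.K r) := F.fil r (k + 1) ⊔ (F.fil r k).map (F.D θ)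

/-- The thickenings of `Γ` in `Y`. -/
structure Tower where
  /-- A basis of small Stein open subsets `D` of `Z`. -/
  Op : Type
  /-- Inclusion of open subsets. -/
  sub : Op → Op → Prop
  /-- The ring `H^0(Γ_D, O_Y/I_{j+1})`.  In particular `A 0 D = H^0(Γ_D, O_Γ)` is the ring of the
  holomorphic functions on `D`. -/
  A : ℕ → Op → Type
  [ring : ∀ j D, CommRing (A j D)]
  [alg : ∀ j D, Algebra ℂ (A j D)]
  /-- Restriction to `Γ_D`. -/
  toO : ∀ j D, A j D →ₐ[ℂ] A 0 D
  toO_zero : ∀ D a, toO 0 D a = a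
  /-- Restriction to the previous thickening. -/
  tr : ∀ j D, A (j + 1) D → A j D
  toO_tr : ∀ j D a, toO j D (tr j D a) = toO (j + 1) D a
  /-- Restriction to a smaller open subset. -/
  res : ∀ j D D', sub D' D → A j D → A j D'
  toO_res : ∀ j D D' (h : sub D' D) a, toO j D' (res j D D' h a) = res 0 D D' h (toO j D a)
  /-- The dimension of the polydisc which contains `D`. -/
  r : Op → ℕ
  r_pos : ∀ D, 0 < r D
  /-- The coordinates of the polydisc, restricted to `D`. -/
  x : ∀ D, Fin (r D) → A 0 D

attribute [instance] Tower.ring Tower.alg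

/-- The restriction of `a` to `Γ_D`. -/
def Tower.bar (F : Tower) {j : ℕ} {D : F.Op} (a : F.A j D) : F.A 0 D := F.toO j D a


/-- The obstructions to lifting the functions and the section `e_D` from one thickening to the next:
the cohomology sequences of `0 → I_{j+1}/I_{j+2} → O_Y/I_{j+2} → O_Y/I_{j+1} → 0`. -/
structure Obstructions (F : Tower) where
  /-- The space `H^1(Γ_D, I_{j+1}/I_{j+2})`. -/
  R : ℕ → F.Op → Type
  [grp : ∀ j D, AddCommGroup (R j D)]
  [mod : ∀ j D, Module (F.A 0 D) (R j D)]
  [modC : ∀ j D, Module ℂ (R j D)]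
  /-- Restriction to a smaller open subset. -/
  res : ∀ j D D', F.sub D' D → R j D → R j D'
  /-- The connecting map: the class of `t_α - t_β`, where the `t_α` are local lifts of `t`. -/
  ob : ∀ j D, F.A j D → R j D
  ob_add : ∀ j D a b, ob j D (a + b) = ob j D a + ob j D b
  ob_smul : ∀ j D (c : ℂ) a, ob j D (c • a) = c • ob j D a
  ob_mul : ∀ j D a b, ob j D (a * b) = F.bar a • ob j D b + F.bar b • ob j D a
  ob_res : ∀ j D D' h a, ob j D' (F.res j D D' h a) = res j D D' h (ob j D a)
  ob_exact : ∀ j D a, ob j D a = 0 ↔ ∃ a', F.tr j D a' = a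
  /-- The sections of `mL ⊗ O_Y/I_{j+1}` over `Γ_D` whose restriction to `Γ_D` is `f^*e_D`, for the fixed
  generator `e_D`; thus `T 0 D` has one element. -/
  T : ℕ → F.Op → Type
  T_zero : ∀ D, Nonempty (T 0 D)
  /-- Restriction to the previous thickening. -/
  trT : ∀ j D, T (j + 1) D → T j D
  /-- The class of `(1/(mN)) log(e_β/e_α)`, where the `e_α` are local lifts of `e`; modulo `I_{j+2}`
  this is `(1/(mN))(e_β/e_α - 1)`. -/
  obT : ∀ j D, T j D → R j D
  obT_exact : ∀ j D e, obT j D e = 0 ↔ ∃ e', trT j D e' = e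

attribute [instance] Obstructions.grp Obstructions.mod Obstructions.modC

/-- Smooth lifts.  Let `φ_α` be a smooth partition of unity near `Γ_D` in `Y`, subordinate to an open
covering `U_α`. -/
structure Lifts {F : Tower} (G : Obstructions F) (D : F.Op) extends Forms where
  /-- `lift j t a` means that `a = d(∑ φ_α t_α)`, where the `t_α` are holomorphic functions on the
  `U_α` which lift `t`. -/
  lift : ∀ j, F.A j D → One → Prop
  lift_ex : ∀ j t, ∃ a, lift j t a
  lift_zero : ∀ j t a, lift j t a → lift 0 (F.bar t) a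
  /-- Since `s` has the type `(n, 0)`, only the part of `a` of type `(0, 1)` matters, which is
  `∑ d''φ_α t_α = ∑ d''φ_α (t_α - t_β)` on `U_β`, and `t_α - t_β` belongs to `I_{j+1}`. -/
  lift_s : ∀ j t a, lift j t a → w a s ∈ V (j + 1)
  /-- `liftT j e a` means that `a = dℓ_β + d(∑ φ_α (ℓ_α - ℓ_β))` on `U_β`, where the `e_α` are sections of
  `mL` on the `U_α` which lift `e`, and `ℓ_α = (1/(mN)) log(τ/e_α)`; `ℓ_α - ℓ_β` is a well defined
  function in `I_{j+1}`. -/
  liftT : ∀ j, G.T j D → One → Prop
  liftT_ex : ∀ j e, ∃ a, liftT j e a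
  liftT_zero : ∀ j e a, liftT j e a → ∃ e₀, liftT 0 e₀ a
  liftT_s : ∀ j e a, liftT j e a → w a s ∈ V (j + 1)

/-- The forms `θ_i` and `θ_ℓ` come from smooth lifts of the functions `x_i` and of the section `f^*e_D`
from `Γ_D` to `W`.  The differentials of the graded pieces of `V` do not depend on these lifts. -/
def Lifts.IsBase {F : Tower} {G : Obstructions F} {D : F.Op} (S : Lifts G D)
    (θ : Option (Fin (F.r D)) → S.One) : Prop :=
  (∀ i, S.lift 0 (F.x D i) (θ (some i))) ∧ ∃ e₀, S.liftT 0 e₀ (θ none)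

/-- The cohomology of degree one of the `(j+1)`-th graded piece, over `D`. -/
structure Direct {F : Tower} {G : Obstructions F} {D : F.Op} (S : Lifts G D) (j : ℕ) where
  /-- The cohomology of degree `1` (forms of degree `n + 1`) of the complex
  `V^{1+(j+1)/N}/V^{1+(j+2)/N}` of the polynomials with coefficients in `Ω`; that is, the sections
  over `D` of the first direct image under `fπ : Σ → Z` of the part of weight `1 + (j+1)/N` of the
  specialisation (nearby cycles) along the section `τ` of `mL` of the mixed Hodge module defined by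
  the local system (it is pure if `S = 0`). -/
  M : Type
  [grp : AddCommGroup M]
  [mod : Module (Ops (F.r D)) M]
  /-- `z` is a cocycle modulo `V^{1+(j+2)/N}` and `m` is its class. -/
  rep : (Option (Fin (F.r D)) → S.One) → S.K (F.r D) → M → Prop
  rep_add : ∀ θ z z' m m', rep θ z m → rep θ z' m' → rep θ (z + z') (m + m')
  rep_smul : ∀ θ (c : Ops (F.r D)) z m, rep θ z m → rep θ (c • z) (c • m)
  rep_bd : ∀ θ, S.IsBase θ → ∀ z m, rep θ z m → z ∈ S.bd θ (j + 1) → m = 0
  /-- The space `H^1(Σ_D, V^{1+(j+1)/N}Ω^n/V^{1+(j+2)/N}Ω^n)`. -/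
  P : Type
  /-- Multiplication by `s`, from `H^1(Γ_D, I_{j+1}/I_{j+2})` to `P`. -/
  mul : G.R j D → P
  /-- The map `mul` is bijective since `Rπ_*(V^{1+(j+1)/N}Ω^n/V^{1+(j+2)/N}Ω^n) = (I_{j+1}/I_{j+2})s`
  (Kawamata, Viehweg). -/
  mul_inj : Function.Injective mul
  /-- The natural map from `P` to `M`; its image is the first step `F_0` of the Hodge filtration. -/
  incl : P → M
  /-- The Hodge filtration is strict under the projective morphism `Σ → Z` (Saito). -/
  incl_inj : Function.Injective incl
  s_add : ∀ a b, incl (mul (a + b)) = incl (mul a) + incl (mul b)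
  s_ob : ∀ θ, S.IsBase θ → ∀ t a, S.lift j t a →
    rep θ (S.one _ (S.w a S.s)) (incl (mul (G.ob j D t)))
  s_obT : ∀ θ, S.IsBase θ → ∀ e a, S.liftT j e a →
    rep θ (S.one _ (S.w a S.s)) (incl (mul (G.obT j D e)))

attribute [instance] Direct.grp Direct.mod

/-- The element `sa` of `M`. -/
def Direct.s {F : Tower} {G : Obstructions F} {D : F.Op} {S : Lifts G D} {j : ℕ} (H : Direct S j)
    (a : G.R j D) : H.M := H.incl (H.mul a)

/-- `M` is a module over the differential operators of the polydisc. -/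
structure DModule {F : Tower} {G : Obstructions F} {D : F.Op} (S : Lifts G D) (j : ℕ)
    extends Direct S j where
  /-- Multiplication by `x_i`. -/
  mulx : Fin (F.r D) → M → M
  mulx_zero : ∀ i, mulx i 0 = 0
  weyl : ∀ i m, Ops.der i • mulx i m = mulx i (Ops.der i • m) + m
  s_x : ∀ i a, toDirect.s (F.x D i • a) = mulx i (toDirect.s a)

/-- The weight filtration of `M`. -/
structure Hodge {F : Tower} {G : Obstructions F} {D : F.Op} (S : Lifts G D) (N j : ℕ)
    extends DModule S j where
  /-- The weight filtration. -/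
  W : ℤ → Submodule (Ops (F.r D)) M
  W_mono : Monotone W
  /-- `∂_ℓ = (N + j + 1) + N'`, where `N'` is (up to a factor) the logarithm of the unipotent part of the
  monodromy, a morphism of mixed Hodge modules `M → M(-1)`: it lowers the weights by `2` (Saito). -/
  N_W : ∀ k, ∀ m ∈ W k, (Ops.E (F.r D) (N + (j + 1)) • m : M) ∈ W (k - 2)

/-- The derivations of `O_Z` with values in `R^1f_*(I_{j+1}/I_{j+2})`. -/
structure Fields {F : Tower} (G : Obstructions F) (j : ℕ) where
  /-- The derivation over `D`. -/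
  δ : ∀ D, Derivation ℂ (F.A 0 D) (G.R j D)
  res : ∀ D D' (h : F.sub D' D) z, G.res j D D' h (δ D z) = δ D' (F.res 0 D D' h z)

/-- The value of the derivation `v` on `z`. -/
def Fields.val {F : Tower} {G : Obstructions F} {j : ℕ} (v : Fields G j) (D : F.Op) (z : F.A 0 D) :
    G.R j D := v.δ D z

section

variable {F : Tower} {G : Obstructions F} {D : F.Op} {S : Lifts G D} {N j : ℕ}

/-- `∑ ∂_i (s v_i)`. -/
def Hodge.div (H : Hodge S N j) (v : Fin (F.r D) → G.R j D) : H.M := ∑ i, Ops.der i • H.s (v i)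

/-- The derivation `sv` has its values in `W_k M`. -/
def Hodge.In (H : Hodge S N j) (k : ℤ) (v : Fields G j) : Prop :=
  ∀ z, H.s (v.val D z) ∈ H.W k

/-- `∑ ∂_i (s v(x_i))` belongs to `F_0 M + W_k M`. -/
def Hodge.DivIn (H : Hodge S N j) (k : ℤ) (v : Fields G j) : Prop :=
  ∃ a, H.div (fun i => v.val D (F.x D i)) - H.s a ∈ H.W k

end

/-- The mixed Hodge module `M` on `Z`. -/
structure Level {F : Tower} {G : Obstructions F} (S : ∀ D, Lifts G D) (N j : ℕ) where
  /-- Its sections over `D`; `e_D` is used to trivialise `mL` on `Σ_D`. -/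
  H : ∀ D, Hodge (S D) N j
  lo : ℤ
  len : ℕ
  W_lo : ∀ D, (H D).W lo = ⊥
  W_hi : ∀ D, (H D).W (lo + len) = ⊤
  /-- The vanishing theorem of Kodaira and Saito.  `G = Gr^W_k M` is a polarisable Hodge module on `Z`
  twisted by the negative `ℚ`-line bundle `-((N+j+1)/(mN))H`.  So the cohomology sheaf of degree `-1`
  of `Gr^F_1 DR(G)`, which is the kernel of `F_0 G ⊗ T → Gr^F_1 G` (`T` is the tangent sheaf of an
  ambient projective space), has no nonzero global section.  It is the sheaf of the derivations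
  `v` of `O_Z` with values in `F_0 G` and with `∑ ∂_i v(x_i)` in `F_0 G`.  (For a fractional multiple
  of `H` one takes a Kummer covering of the projective space, as `G` is a direct summand of the
  direct image of its inverse image.) -/
  vanish : ∀ k v, (∀ D, (H D).In k v) → (∀ D, (H D).DivIn (k - 1) v) → ∀ D, (H D).In (k - 1) v

/-- The thickenings of `Γ` in `Y` and the direct images, for `(Y, Γ + S + Δ)` as above. -/
structure FormalNbhd where
  /-- The thickenings. -/
  F : Tower
  /-- The obstructions. -/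
  G : Obstructions F
  /-- The forms and the smooth lifts. -/
  S : ∀ D, Lifts G D
  /-- The common denominator. -/
  N : ℕ
  /-- The theorem of Kashiwara and Malgrange: `∂_ℓ - (N + k)` is nilpotent on the cohomology of the
  graded piece of order `1 + k/N` (here `ℓ = (1/(mN)) log(τ/e)`). -/
  nilp : ∀ D θ, (S D).IsBase θ → (S D).Nilpotent θ N
  /-- The theorems of Saito. -/
  level : ∀ j, Level S N j

/-- All functions and all trivialisations lift from each thickening to the next one. -/
def FormalNbhd.AllLift (Y : FormalNbhd) : Prop :=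
  (∀ j D, Function.Surjective (Y.F.tr j D)) ∧ (∀ j D, Function.Surjective (Y.G.trT j D))

/-- The fibration `f` extends to the formal neighbourhood: every function on `D` extends to a formal
function along `Γ_D`, and `f^*e_D` extends to a formal section of `mL`. -/
def FormalNbhd.Extends (Y : FormalNbhd) : Prop :=
  (∀ D (z : Y.F.A 0 D), ∃ a : ∀ j, Y.F.A j D, a 0 = z ∧ ∀ j, Y.F.tr j D (a (j + 1)) = a j) ∧
  ∀ D, ∃ e : ∀ j, Y.G.T j D, ∀ j, Y.G.trT j D (e (j + 1)) = e j

/-! ### Proofs -/

section

variable {r : ℕ} {M : Type} [AddCommGroup M] [Module (Ops r) M]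

/-- Nonzero natural numbers act injectively. -/
theorem nat_smul_inj (c : ℕ) (hc : c ≠ 0) (m : M) (h : (c : Ops r) • m = 0) : m = 0 := by
  have h1 : algebraMap ℂ (Ops r) ((c : ℂ)⁻¹) * (c : Ops r) = 1 := by
    rw [← map_natCast (algebraMap ℂ (Ops r)), ← map_mul, inv_mul_cancel₀ (by exact_mod_cast hc),
      map_one]
  rw [← one_smul (Ops r) m, ← h1, mul_smul, h, smul_zero]

theorem eq_zero_of_eq_neg (r : ℕ) {M : Type} [AddCommGroup M] [Module (Ops r) M] (m : M)
    (h : m = -m) : m = 0 := by
  refine nat_smul_inj (r := r) 2 (by norm_num) m ?_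
  have h2 : m + m = 0 := by
    nth_rewrite 2 [h]
    exact add_neg_cancel m
  rw [Nat.cast_ofNat, two_smul]
  exact h2

/-- If `∂_ℓ - a` is nilpotent and `b < a`, then `∂_ℓ - b` is injective. -/
theorem E_inj {a b n : ℕ} (hab : b < a) (h : ∀ m : M, Ops.E r a ^ n • m = 0) (m : M)
    (hm : Ops.E r b • m = 0) : m = 0 := by
  have h1 : Ops.E r a • m = -(((a - b : ℕ) : Ops r) • m) := by
    have h2 : Ops.E r a = Ops.E r b - ((a - b : ℕ) : Ops r) := by
      unfold Ops.E
      rw [Nat.cast_sub hab.le]
      ring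
    rw [h2, sub_smul, hm, zero_sub]
  have h3 : ∀ k : ℕ, Ops.E r a ^ k • m = (-((a - b : ℕ) : Ops r)) ^ k • m := by
    intro k
    induction k with
    | zero => simp
    | succ k ih =>
      rw [pow_succ, mul_smul, h1, smul_neg, smul_smul, mul_comm, ← smul_smul, ih, smul_smul,
        ← neg_smul, pow_succ]
      congr 1
      ring
  have h4 : ∀ k : ℕ, (-((a - b : ℕ) : Ops r)) ^ k • m = 0 → m = 0 := by
    intro k
    induction k with
    | zero => intro h; simpa using h
    | succ k ih =>
      intro h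
      rw [pow_succ', mul_smul, neg_smul, neg_eq_zero] at h
      exact ih (nat_smul_inj _ (by omega) _ h)
  exact h4 n (by rw [← h3]; exact h m)

theorem E_pow_inj {a b n : ℕ} (hab : b < a) (h : ∀ m : M, Ops.E r a ^ n • m = 0) (k : ℕ) :
    ∀ m : M, Ops.E r b ^ k • m = 0 → m = 0 := by
  induction k with
  | zero => intro m hm; simpa using hm
  | succ k ih =>
    intro m hm
    rw [pow_succ', mul_smul] at hm
    exact ih m (E_inj hab h _ hm)

end

namespace Forms

variable (F : Forms) (r : ℕ)

theorem map_one' (f : Module.End ℂ F.Ω) (z : F.Ω) : F.map r f (F.one r z) = F.one r (f z) :=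
  LinearMap.baseChange_tmul (R := ℂ) (A := Ops r) (f := f) 1 z

theorem one_mem (k : ℕ) (z : F.Ω) (hz : z ∈ F.V k) : F.one r z ∈ F.fil r k :=
  Submodule.tmul_mem_baseChange_of_mem (A := Ops r) 1 hz

theorem map_mul' (f g : Module.End ℂ F.Ω) : F.map r f * F.map r g = F.map r (f * g) :=
  (LinearMap.baseChange_comp (A := Ops r) g f).symm

theorem map_neg' (f : Module.End ℂ F.Ω) : F.map r (-f) = -F.map r f :=
  LinearMap.baseChange_neg (A := Ops r) f

theorem map_zero' : F.map r 0 = 0 := LinearMap.baseChange_zero (A := Ops r)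

theorem one_zero : F.one r 0 = 0 := TensorProduct.tmul_zero _ _

/-- `D` is a differential. -/
theorem D_D {r : ℕ} (θ : Option (Fin r) → F.One) (z : F.K r) : F.D θ (F.D θ z) = 0 := by
  have hA : F.map r F.d * F.map r F.d = 0 := by
    rw [map_mul', ← map_zero']
    congr 1
    ext z
    exact F.d_d z
  have hdw : ∀ a, F.map r F.d * F.map r (F.w a) = -(F.map r (F.w a) * F.map r F.d) := by
    intro a
    rw [map_mul', map_mul', ← map_neg']
    congr 1
    ext z
    exact F.d_w a z
  have hww : ∀ a b, F.map r (F.w a) * F.map r (F.w b) = -(F.map r (F.w b) * F.map r (F.w a)) := by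
    intro a b
    rw [map_mul', map_mul', ← map_neg']
    congr 1
    ext z
    exact F.w_w a b z
  set B : Module.End (Ops r) (F.K r) := ∑ o, (Ops.X o : Ops r) • F.map r (F.w (θ o)) with hB
  have hAB : F.map r F.d * B = -(B * F.map r F.d) := by
    rw [hB, Finset.mul_sum, Finset.sum_mul, ← Finset.sum_neg_distrib]
    refine Finset.sum_congr rfl fun o _ => ?_
    rw [mul_smul_comm, smul_mul_assoc, hdw, smul_neg]
  have hBB : B * B = 0 := by
    refine eq_zero_of_eq_neg r _ ?_
    have h1 : B * B = ∑ o, ∑ o', ((Ops.X o * Ops.X o' : Ops r)) •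
        (F.map r (F.w (θ o)) * F.map r (F.w (θ o'))) := by
      rw [hB, Finset.sum_mul_sum]
      refine Finset.sum_congr rfl fun o _ => Finset.sum_congr rfl fun o' _ => ?_
      rw [smul_mul_smul_comm]
    nth_rewrite 1 [h1]
    rw [Finset.sum_comm, h1, ← Finset.sum_neg_distrib]
    refine Finset.sum_congr rfl fun o _ => ?_
    rw [← Finset.sum_neg_distrib]
    refine Finset.sum_congr rfl fun o' _ => ?_
    rw [hww, smul_neg, mul_comm (Ops.X o' : Ops r)]
  have h : F.D θ * F.D θ = 0 := by
    have h0 : F.D θ = F.map r F.d - B := rfl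
    rw [h0, mul_sub, sub_mul, sub_mul, hA, hAB, hBB]
    abel
  exact congrArg (fun f : Module.End (Ops r) (F.K r) => f z) h

theorem fil_le (i k : ℕ) (h : i ≤ k) : F.fil r k ≤ F.fil r i := by
  have hV : F.V k ≤ F.V i := by
    induction h with
    | refl => exact le_rfl
    | step _ ih => exact (F.V_succ _).trans ih
  exact Submodule.baseChange_mono (A := Ops r) hV

end Forms

namespace Direct

variable {F : Tower} {G : Obstructions F} {D : F.Op} {S : Lifts G D} {j : ℕ} (H : Direct S j)

/-- Let `u` be an element of order `≥ 1` whose coboundary has order `≥ 1 + (j+1)/N`.  The connecting map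
sends the class of `u` to the class `m` of `Du`; it commutes with `∂_ℓ`, whose eigenvalues are
`N, ..., N + j` before and `N + j + 1` after.  So `m = 0`. -/
theorem key (N n : ℕ) (hn : ∀ m : H.M, Ops.E (F.r D) (N + (j + 1)) ^ n • m = 0)
    (θ : Option (Fin (F.r D)) → S.One) (hθ : S.IsBase θ) (hS : S.Nilpotent θ N)
    (u : S.K (F.r D)) (hu : u ∈ S.fil (F.r D) 0) (hDu : S.D θ u ∈ S.fil (F.r D) (j + 1)) (m : H.M)
    (hm : H.rep θ (S.D θ u) m) : m = 0 := by
  have main : ∀ i ≤ j + 1, ∃ (P : Ops (F.r D)) (w : S.K (F.r D)),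
      P • u - S.D θ w ∈ S.fil (F.r D) i ∧ ∀ m : H.M, P • m = 0 → m = 0 := by
    intro i
    induction i with
    | zero =>
      intro _
      refine ⟨1, 0, ?_, ?_⟩
      · rw [one_smul, map_zero, sub_zero]
        exact hu
      · intro m hm
        rwa [one_smul] at hm
    | succ i ih =>
      intro hi
      obtain ⟨P, w, hw, hP⟩ := ih (by omega)
      have hz : S.D θ (P • u - S.D θ w) ∈ S.fil (F.r D) (i + 1) := by
        rw [map_sub, Forms.D_D, sub_zero, map_smul]
        exact S.fil_le (F.r D) (i + 1) (j + 1) hi (Submodule.smul_mem _ _ hDu)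
      obtain ⟨k, w', hk⟩ := hS i _ hw hz
      refine ⟨Ops.E (F.r D) (N + i) ^ k * P, Ops.E (F.r D) (N + i) ^ k • w + w', ?_, ?_⟩
      · have e : (Ops.E (F.r D) (N + i) ^ k * P) • u -
            S.D θ (Ops.E (F.r D) (N + i) ^ k • w + w') =
            Ops.E (F.r D) (N + i) ^ k • (P • u - S.D θ w) - S.D θ w' := by
          rw [map_add, map_smul, smul_sub, mul_smul]
          abel
        rw [e]
        exact hk
      · intro m hm
        rw [mul_smul] at hm
        exact hP m (E_pow_inj (by omega) hn k _ hm)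
  obtain ⟨P, w, hw, hP⟩ := main (j + 1) le_rfl
  refine hP m (H.rep_bd θ hθ _ _ (H.rep_smul θ P _ _ hm) ?_)
  refine Submodule.mem_sup_right ?_
  refine Submodule.mem_map.2 ⟨_, hw, ?_⟩
  rw [map_sub, Forms.D_D, sub_zero, map_smul]

theorem rep_zero (θ : Option (Fin (F.r D)) → S.One) (z : S.K (F.r D)) (m : H.M)
    (h : H.rep θ z m) : H.rep θ 0 0 := by
  have h1 := H.rep_smul θ 0 z m h
  rwa [zero_smul, zero_smul] at h1

/-- `Ds = -∑ ∂_i dt_i ∧ s - ∂_ℓ dℓ ∧ s`.  So `∑ ∂_i ob(t_i)s + ∂_ℓ obT(e)s = 0` in `M`. -/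
theorem star (N n : ℕ) (hn : ∀ m : H.M, Ops.E (F.r D) (N + (j + 1)) ^ n • m = 0)
    (hS : ∀ θ, S.IsBase θ → S.Nilpotent θ N) (t : Fin (F.r D) → F.A j D) (e : G.T j D)
    (ht : ∀ i, F.bar (t i) = F.x D i) :
    ∑ i, (Ops.der i : Ops (F.r D)) • H.s (G.ob j D (t i)) +
      (Ops.X none : Ops (F.r D)) • H.s (G.obT j D e) = 0 := by
  choose a ha using fun i => S.lift_ex j (t i)
  obtain ⟨b, hb⟩ := S.liftT_ex j e
  let θ : Option (Fin (F.r D)) → S.One := fun o => o.elim b a
  have hθ : S.IsBase θ := by
    refine ⟨fun i => ?_, S.liftT_zero j e b hb⟩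
    rw [← ht i]
    exact S.lift_zero j (t i) (a i) (ha i)
  let μ : Option (Fin (F.r D)) → H.M := fun o => o.elim (H.s (G.obT j D e))
    (fun i => H.s (G.ob j D (t i)))
  have hrep : ∀ o, H.rep θ (S.one _ (S.w (θ o) S.s)) (μ o) := by
    intro o
    cases o with
    | none => exact H.s_obT θ hθ e b hb
    | some i => exact H.s_ob θ hθ (t i) (a i) (ha i)
  have hV : ∀ o, S.w (θ o) S.s ∈ S.V (j + 1) := by
    intro o
    cases o with
    | none => exact S.liftT_s j e b hb
    | some i => exact S.lift_s j (t i) (a i) (ha i)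
  have hD : S.D θ (S.one (F.r D) S.s) =
      (-1 : Ops (F.r D)) • ∑ o, (Ops.X o : Ops (F.r D)) • S.one (F.r D) (S.w (θ o) S.s) := by
    have h1 : S.D θ (S.one (F.r D) S.s) = S.map (F.r D) S.d (S.one (F.r D) S.s) -
        (∑ o, (Ops.X o : Ops (F.r D)) • S.map (F.r D) (S.w (θ o))) (S.one (F.r D) S.s) := rfl
    rw [h1, Forms.map_one', S.d_s, Forms.one_zero, zero_sub, neg_one_smul, LinearMap.sum_apply]
    refine congrArg Neg.neg (Finset.sum_congr rfl fun o _ => ?_)
    rw [LinearMap.smul_apply, Forms.map_one']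
  have hsum : ∀ A : Finset (Option (Fin (F.r D))),
      H.rep θ (∑ o ∈ A, (Ops.X o : Ops (F.r D)) • S.one (F.r D) (S.w (θ o) S.s))
        (∑ o ∈ A, (Ops.X o : Ops (F.r D)) • μ o) := by
    classical
    intro A
    induction A using Finset.induction_on with
    | empty =>
      rw [Finset.sum_empty, Finset.sum_empty]
      exact H.rep_zero θ _ _ (hrep none)
    | insert o A ho ih =>
      rw [Finset.sum_insert ho, Finset.sum_insert ho]
      exact H.rep_add θ _ _ _ _ (H.rep_smul θ _ _ _ (hrep o)) ih
  have h0 := H.key N n hn θ hθ (hS θ hθ) (S.one (F.r D) S.s) (S.one_mem _ _ _ S.s_V) (by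
    rw [hD]
    refine Submodule.smul_mem _ _ (Submodule.sum_mem _ fun o _ => Submodule.smul_mem _ _ ?_)
    exact S.one_mem _ _ _ (hV o)) _ (by
    rw [hD]
    exact H.rep_smul θ _ _ _ (hsum Finset.univ))
  rw [neg_one_smul, neg_eq_zero, Fintype.sum_option, add_comm] at h0
  exact h0

end Direct

namespace Obstructions

variable {F : Tower} (G : Obstructions F)

theorem ob_zero (j : ℕ) (D : F.Op) : G.ob j D 0 = 0 := by
  have h := G.ob_add j D 0 0
  rw [add_zero] at h
  exact left_eq_add.1 h

theorem ob_sub (j : ℕ) (D : F.Op) (a b : F.A j D) : G.ob j D (a - b) = G.ob j D a - G.ob j D b := by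
  have h := G.ob_add j D (a - b) b
  rw [sub_add_cancel] at h
  rw [h, add_sub_cancel_right]

end Obstructions

theorem Direct.s_add' {F : Tower} {G : Obstructions F} {D : F.Op} {S : Lifts G D} {j : ℕ}
    (H : Direct S j) (a b : G.R j D) : H.s (a + b) = H.s a + H.s b := H.s_add a b

theorem Direct.s_zero {F : Tower} {G : Obstructions F} {D : F.Op} {S : Lifts G D} {j : ℕ}
    (H : Direct S j) : H.s 0 = 0 := by
  have h := H.s_add' 0 0
  rw [add_zero] at h
  exact left_eq_add.1 h

theorem Direct.s_inj {F : Tower} {G : Obstructions F} {D : F.Op} {S : Lifts G D} {j : ℕ}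
    (H : Direct S j) (a : G.R j D) (h : H.s a = 0) : a = 0 := by
  refine H.mul_inj (H.incl_inj ?_)
  change H.s a = H.s 0
  rw [h, H.s_zero]

theorem Direct.s_neg {F : Tower} {G : Obstructions F} {D : F.Op} {S : Lifts G D} {j : ℕ}
    (H : Direct S j) (a : G.R j D) : H.s (-a) = -H.s a := by
  have h := H.s_add' (-a) a
  rw [neg_add_cancel, H.s_zero] at h
  exact eq_neg_of_add_eq_zero_left h.symm

theorem Direct.s_nsmul {F : Tower} {G : Obstructions F} {D : F.Op} {S : Lifts G D} {j : ℕ}
    (H : Direct S j) (c : ℕ) (a : G.R j D) : H.s (c • a) = (c : Ops (F.r D)) • H.s a := by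
  induction c with
  | zero => rw [zero_smul, Nat.cast_zero, zero_smul, H.s_zero]
  | succ c ih => rw [add_smul, one_smul, H.s_add', ih, Nat.cast_succ, add_smul, one_smul]

namespace Level

variable {F : Tower} {G : Obstructions F} {S : ∀ D, Lifts G D} {N j : ℕ} (L : Level S N j)

/-- `E - (N + j + 1)` is nilpotent. -/
theorem nilp (D : F.Op) (m : (L.H D).M) : Ops.E (F.r D) (N + (j + 1)) ^ L.len • m = 0 := by
  have h : ∀ n : ℕ, Ops.E (F.r D) (N + (j + 1)) ^ n • m ∈ (L.H D).W (L.lo + L.len - n) := by
    intro n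
    induction n with
    | zero =>
      rw [Nat.cast_zero, sub_zero, L.W_hi]
      trivial
    | succ n ih =>
      have h1 := (L.H D).N_W _ _ ih
      rw [pow_succ', mul_smul]
      refine (L.H D).W_mono ?_ h1
      push_cast
      omega
  have h2 := h L.len
  rw [add_sub_cancel_right, L.W_lo] at h2
  exact (Submodule.mem_bot _).1 h2

/-- If the functions of `D` and `e_D` lift to the `j`-th thickening, all obstructions vanish. -/
theorem step (L : Level S N j) (hN : ∀ D θ, (S D).IsBase θ → (S D).Nilpotent θ N)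
    (hs : ∀ D (z : F.A 0 D), ∃ a : F.A j D, F.bar a = z) (hT : ∀ D, Nonempty (G.T j D)) :
    (∀ D a, G.ob j D a = 0) ∧ (∀ D e, G.obT j D e = 0) := by
  have hstar0 : ∀ D (t : Fin (F.r D) → F.A j D) (e : G.T j D), (∀ i, F.bar (t i) = F.x D i) →
      ∑ i, (Ops.der i : Ops (F.r D)) • (L.H D).s (G.ob j D (t i)) +
      (Ops.X none : Ops (F.r D)) • (L.H D).s (G.obT j D e) = 0 := fun D t e ht =>
    (L.H D).star N L.len (L.nilp D) (hN D) t e ht
  have hker : ∀ D (y : F.A j D), F.bar y = 0 → G.ob j D y = 0 := by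
    intro D y hy
    choose t ht using fun i => hs D (F.x D i)
    let i₀ : Fin (F.r D) := ⟨0, F.r_pos D⟩
    have h1 : ∀ y : F.A j D, F.bar y = 0 →
        (Ops.der i₀ : Ops (F.r D)) • (L.H D).s (G.ob j D y) = 0 := by
      intro y hy
      have h2 := hstar0 D t (hT D).some ht
      have h3 := hstar0 D (Function.update t i₀ (t i₀ + y)) (hT D).some (by
        intro i
        by_cases hi : i = i₀
        · subst hi
          rw [Function.update_self, ← ht]
          change F.toO j D (t i₀ + y) = F.toO j D (t i₀)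
          have hy' : F.toO j D y = 0 := hy
          rw [map_add, hy', add_zero]
        · rw [Function.update_of_ne hi]
          exact ht i)
      have h4 : ∑ i, (Ops.der i : Ops (F.r D)) •
          (L.H D).s (G.ob j D (Function.update t i₀ (t i₀ + y) i)) =
          ∑ i, (Ops.der i : Ops (F.r D)) • (L.H D).s (G.ob j D (t i)) +
            (Ops.der i₀ : Ops (F.r D)) • (L.H D).s (G.ob j D y) := by
        have h5 : ∀ i, (Ops.der i : Ops (F.r D)) •
            (L.H D).s (G.ob j D (Function.update t i₀ (t i₀ + y) i)) =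
            (Ops.der i : Ops (F.r D)) • (L.H D).s (G.ob j D (t i)) +
            (if i = i₀ then (Ops.der i₀ : Ops (F.r D)) • (L.H D).s (G.ob j D y) else 0) := by
          intro i
          by_cases hi : i = i₀
          · subst hi
            rw [Function.update_self, if_pos rfl, G.ob_add, (L.H D).s_add', smul_add]
          · rw [Function.update_of_ne hi, if_neg hi, add_zero]
        rw [Finset.sum_congr rfl fun i _ => h5 i, Finset.sum_add_distrib,
          Finset.sum_ite_eq' Finset.univ i₀, if_pos (Finset.mem_univ _)]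
      rw [h4, add_right_comm, h2, zero_add] at h3
      exact h3
    have h6 := h1 (t i₀ * y) (by
      change F.toO j D (t i₀ * y) = 0
      have hy' : F.toO j D y = 0 := hy
      rw [map_mul, hy', mul_zero])
    rw [G.ob_mul, ht, hy, zero_smul, add_zero, (L.H D).s_x, (L.H D).weyl, h1 y hy,
      (L.H D).mulx_zero, zero_add] at h6
    exact (L.H D).s_inj _ h6
  have hindep : ∀ D (a b : F.A j D), F.bar a = F.bar b → G.ob j D a = G.ob j D b := by
    intro D a b hab
    have h1 := hker D (a - b) (by
      change F.toO j D (a - b) = 0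
      have hab' : F.toO j D a = F.toO j D b := hab
      rw [map_sub, hab', sub_self])
    rwa [G.ob_sub, sub_eq_zero] at h1
  have bar_add : ∀ D (a b : F.A j D), F.bar (a + b) = F.bar a + F.bar b := fun D a b =>
    map_add (F.toO j D) a b
  have bar_mul : ∀ D (a b : F.A j D), F.bar (a * b) = F.bar a * F.bar b := fun D a b =>
    map_mul (F.toO j D) a b
  have bar_smul : ∀ D (c : ℂ) (a : F.A j D), F.bar (c • a) = c • F.bar a := fun D c a =>
    map_smul (F.toO j D) c a
  -- the derivation of `O_Z`
  choose Λ hΛ using hs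
  let δl : ∀ D, F.A 0 D →ₗ[ℂ] G.R j D := fun D =>
    { toFun := fun z => G.ob j D (Λ D z)
      map_add' := by
        intro z w
        rw [← G.ob_add]
        apply hindep
        rw [bar_add, hΛ, hΛ, hΛ]
      map_smul' := by
        intro c z
        rw [RingHom.id_apply, ← G.ob_smul]
        apply hindep
        rw [bar_smul, hΛ, hΛ] }
  have hδl : ∀ D z, δl D z = G.ob j D (Λ D z) := fun D z => rfl
  let v : Fields G j :=
    { δ := fun D => Derivation.mk' (δl D) (by
        intro z w
        rw [hδl, hδl, hδl]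
        have h1 : G.ob j D (Λ D (z * w)) = G.ob j D (Λ D z * Λ D w) := by
          apply hindep
          rw [bar_mul, hΛ, hΛ, hΛ]
        rw [h1, G.ob_mul, hΛ, hΛ])
      res := by
        intro D D' h z
        change G.res j D D' h (G.ob j D (Λ D z)) = G.ob j D' (Λ D' (F.res 0 D D' h z))
        rw [← G.ob_res]
        apply hindep
        rw [hΛ]
        have h1 := F.toO_res j D D' h (Λ D z)
        have h2 : F.toO j D (Λ D z) = z := hΛ D z
        rw [h2] at h1
        exact h1 }
  have hδ : ∀ D a, v.val D (F.bar a) = G.ob j D a := by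
    intro D a
    change G.ob j D (Λ D (F.bar a)) = _
    apply hindep
    rw [hΛ]
  have hdiv : ∀ D, (L.H D).div (fun i => v.val D (F.x D i)) =
      ∑ i, (Ops.der i : Ops (F.r D)) • (L.H D).s (v.val D (F.x D i)) := fun D => rfl
  have hstar : ∀ D (e : G.T j D), (L.H D).div (fun i => v.val D (F.x D i)) +
      (Ops.X none : Ops (F.r D)) • (L.H D).s (G.obT j D e) = 0 := by
    intro D e
    have h1 := hstar0 D (fun i => Λ D (F.x D i)) e (fun i => hΛ D _)
    rw [hdiv]
    exact h1
  have hE : ∀ D (m : (L.H D).M), (Ops.X none : Ops (F.r D)) • m =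
      Ops.E (F.r D) (N + (j + 1)) • m + ((N + (j + 1) : ℕ) : Ops (F.r D)) • m := by
    intro D m
    rw [← add_smul]
    congr 1
    unfold Ops.E
    ring
  have hdesc : ∀ n : ℕ, (∀ D, (L.H D).In (L.lo + L.len - n) v) ∧
      (∀ D (e : G.T j D), (L.H D).s (G.obT j D e) ∈ (L.H D).W (L.lo + L.len - n)) := by
    intro n
    induction n with
    | zero =>
      constructor
      · intro D z
        rw [Nat.cast_zero, sub_zero, L.W_hi]
        trivial
      · intro D e
        rw [Nat.cast_zero, sub_zero, L.W_hi]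
        trivial
    | succ n ih =>
      obtain ⟨ih1, ih2⟩ := ih
      set k : ℤ := L.lo + L.len - n with hk
      have hk' : L.lo + L.len - ((n + 1 : ℕ) : ℤ) = k - 1 := by
        rw [hk]
        push_cast
        ring
      rw [hk']
      have h1 : ∀ D, (L.H D).In (k - 1) v := by
        refine L.vanish k v ih1 ?_
        intro D
        refine ⟨-((N + (j + 1)) • G.obT j D (hT D).some), ?_⟩
        have h2 := hstar D (hT D).some
        have h3 := (L.H D).N_W k _ (ih2 D (hT D).some)
        rw [hE] at h2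
        rw [(L.H D).s_neg, (L.H D).s_nsmul, eq_neg_of_add_eq_zero_left h2, neg_add, sub_neg_eq_add,
          neg_add_cancel_right]
        exact Submodule.neg_mem _ ((L.H D).W_mono (by omega) h3)
      refine ⟨h1, ?_⟩
      intro D e
      have h2 := hstar D e
      have h3 := (L.H D).W_mono (show k - 2 ≤ k - 1 by omega) ((L.H D).N_W k _ (ih2 D e))
      have h5 : (L.H D).div (fun i => v.val D (F.x D i)) ∈ (L.H D).W (k - 1) :=
        Submodule.sum_mem _ fun i _ => Submodule.smul_mem _ _ (h1 D _)
      rw [hE, ← add_assoc] at h2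
      have h6 : ((N + (j + 1) : ℕ) : Ops (F.r D)) • (L.H D).s (G.obT j D e) ∈
          (L.H D).W (k - 1) := by
        rw [eq_neg_of_add_eq_zero_right h2]
        exact Submodule.neg_mem _ (Submodule.add_mem _ h5 h3)
      have h7 : algebraMap ℂ (Ops (F.r D)) (((N + (j + 1) : ℕ) : ℂ)⁻¹) *
          ((N + (j + 1) : ℕ) : Ops (F.r D)) = 1 := by
        rw [← map_natCast (algebraMap ℂ (Ops (F.r D))), ← map_mul,
          inv_mul_cancel₀ (by exact_mod_cast (by omega : N + (j + 1) ≠ 0)), map_one]
      have h8 := Submodule.smul_mem _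
        (algebraMap ℂ (Ops (F.r D)) (((N + (j + 1) : ℕ) : ℂ)⁻¹)) h6
      rwa [smul_smul, h7, one_smul] at h8
  have hbot : ∀ D (a : G.R j D), (L.H D).s a ∈ (L.H D).W (L.lo + L.len - (L.len : ℤ)) → a = 0 := by
    intro D a ha
    rw [add_sub_cancel_right, L.W_lo, Submodule.mem_bot] at ha
    exact (L.H D).s_inj a ha
  refine ⟨fun D a => ?_, fun D e => hbot D _ ((hdesc L.len).2 D e)⟩
  rw [← hδ]
  exact hbot D _ ((hdesc L.len).1 D _)

end Level

namespace FormalNbhd

variable (Y : FormalNbhd)

/-- The functions of `D` and `e_D` lift to all thickenings. -/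
theorem surj_and_triv : ∀ j : ℕ,
    (∀ D (z : Y.F.A 0 D), ∃ a : Y.F.A j D, Y.F.bar a = z) ∧ (∀ D, Nonempty (Y.G.T j D)) := by
  intro j
  induction j with
  | zero => exact ⟨fun D z => ⟨z, Y.F.toO_zero D z⟩, Y.G.T_zero⟩
  | succ j ih =>
    obtain ⟨h1, h2⟩ := (Y.level j).step Y.nilp ih.1 ih.2
    constructor
    · intro D z
      obtain ⟨a, ha⟩ := ih.1 D z
      obtain ⟨a', ha'⟩ := (Y.G.ob_exact j D a).1 (h1 D a)
      refine ⟨a', ?_⟩
      change Y.F.toO (j + 1) D a' = z
      rw [← Y.F.toO_tr, ha']
      exact ha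
    · intro D
      obtain ⟨e⟩ := ih.2 D
      obtain ⟨e', -⟩ := (Y.G.obT_exact j D e).1 (h2 D e)
      exact ⟨e'⟩

/-- The fibration extends to the formal neighbourhood. -/
theorem allLift : Y.AllLift := by
  constructor
  · intro j D a
    exact (Y.G.ob_exact j D a).1
      (((Y.level j).step Y.nilp (Y.surj_and_triv j).1 (Y.surj_and_triv j).2).1 D a)
  · intro j D e
    exact (Y.G.obT_exact j D e).1
      (((Y.level j).step Y.nilp (Y.surj_and_triv j).1 (Y.surj_and_triv j).2).2 D e)

/-- The fibration `f : Γ → Z` extends to the formal neighbourhood of `Γ`. -/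
theorem exts : Y.Extends := by
  obtain ⟨h1, h2⟩ := Y.allLift
  choose g hg using h1
  choose g' hg' using h2
  constructor
  · intro D z
    exact ⟨fun j => Nat.rec z (fun j a => g j D a) j, rfl, fun j => hg j D _⟩
  · intro D
    obtain ⟨e⟩ := Y.G.T_zero D
    exact ⟨fun j => Nat.rec e (fun j a => g' j D a) j, fun j => hg' j D _⟩

end FormalNbhd

/-- Complex projective log canonical pairs and their `ℚ`-divisors. -/
structure Pairs where
  /-- The projective log canonical pairs `(X, Δ)` over `ℂ`; the letter `X` stands for the pair. -/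
  Pair : Type
  /-- `(X, Δ)` is klt. -/
  klt : Pair → Prop
  /-- `X` is smooth and `Δ = 0`. -/
  smooth : Pair → Prop
  klt_smooth : ∀ X, smooth X → klt X
  /-- The dimension of `X`. -/
  dim : Pair → ℕ
  /-- The `ℚ`-Cartier `ℚ`-divisors on `X` modulo `ℚ`-linear equivalence. -/
  Div : Pair → Type
  [grp : ∀ X, AddCommGroup (Div X)]
  [mod : ∀ X, Module ℚ (Div X)]
  /-- The class of `K_X + Δ`. -/
  K : ∀ X, Div X
  /-- The classes of the effective divisors. -/
  eff : ∀ X, Set (Div X)
  /-- The pseudo-effective classes. -/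
  psef : ∀ X, Set (Div X)
  /-- The Iitaka dimension; `⊥` is `-∞`. -/
  kod : ∀ {X}, Div X → WithBot ℕ
  /-- The numerical dimension `κ_σ` of Nakayama. -/
  nu : ∀ {X}, Div X → WithBot ℕ
  kod_nonneg : ∀ X (D : Div X), 0 ≤ kod D ↔ D ∈ eff X
  kod_zero : ∀ X, kod (0 : Div X) = 0
  kod_smul : ∀ X (c : ℚ) (D : Div X), 0 < c → kod (c • D) = kod D
  kod_le_nu : ∀ X (D : Div X), kod D ≤ nu D
  nu_le_dim : ∀ X (D : Div X), nu D ≤ dim X
  nu_mono : ∀ X (D D' : Div X), D' - D ∈ psef X → nu D ≤ nu D'
  psef_smul : ∀ X (c : ℚ) (D : Div X), 0 < c → D ∈ psef X → c • D ∈ psef X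
  psef_add : ∀ X (D D' : Div X), D ∈ psef X → D' ∈ eff X → D + D' ∈ psef X
  /-- The sum of a big and a pseudo-effective class is big. -/
  big : ∀ X (D D' : Div X), kod D = dim X → D' ∈ psef X → kod (D + D') = dim X
  /-- `D` is big if its numerical dimension is the dimension of `X` (Nakayama). -/
  big_of_nu : ∀ X (D : Div X), nu D = dim X → kod D = dim X
  /-- Abundance for numerical dimension zero (Nakayama). -/
  nakayama : ∀ X, klt X → nu (K X) = 0 → kod (K X) = 0

attribute [instance] Pairs.grp Pairs.mod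

/-- Abundance, in the form `κ = κ_σ`, for klt pairs of dimension less than `m`. -/
def Pairs.Abundance (P : Pairs) (m : ℕ) : Prop :=
  ∀ X, P.klt X → P.dim X < m → P.K X ∈ P.psef X → P.kod (P.K X) = P.nu (P.K X)

/-- Nonvanishing for `X`: this is the Campana-Peternell conjecture for `A = 0`. -/
def Pairs.Nonvanishing (P : Pairs) (X : P.Pair) : Prop := P.K X ∈ P.psef X → P.K X ∈ P.eff X

/-- Fibrations of klt pairs. -/
structure Fibrations extends Pairs where
  /-- The fibrations `X → S`, `X` a projective klt pair, `S` a projective variety with a chosen ample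
  `ℚ`-divisor. -/
  Fib : Type
  /-- The pair `X`. -/
  tot : Fib → Pair
  /-- A very general fibre. -/
  gen : Fib → Pair
  /-- The dimension of `S`. -/
  base : Fib → ℕ
  /-- The inverse image of the ample `ℚ`-divisor. -/
  H : ∀ F, Div (tot F)
  H_eff : ∀ F, H F ∈ eff (tot F)
  /-- `S` has maximal Albanese dimension. -/
  alb : Fib → Prop
  klt_gen : ∀ F, klt (gen F)
  dim_gen : ∀ F, dim (gen F) + base F = dim (tot F)
  psef_gen : ∀ F, K (tot F) ∈ psef (tot F) → K (gen F) ∈ psef (gen F)
  eff_gen : ∀ F, K (tot F) ∈ eff (tot F) → K (gen F) ∈ eff (gen F)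
  /-- If `κ = κ_σ` for a very general fibre, then this has a good minimal model (Gongyo, Lehmann), hence
  `X` has a good minimal model `X'` over `S` (Lai; Birkar; Hacon, Xu).  By the canonical bundle formula
  (Ambro; Fujino, Mori) its canonical model `C` over `S` carries a klt pair whose log canonical class
  `K_C` is ample over `S`, and `K_{X'} + Δ'` is the inverse image of `K_C`; `B` is the inverse image of
  the divisor on `S`. -/
  canonical : ∀ F, K (tot F) ∈ psef (tot F) → kod (K (gen F)) = nu (K (gen F)) →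
    ∃ (C : Pair) (B : Div C) (c : ℚ), klt C ∧ K C ∈ psef C ∧
      (dim C : WithBot ℕ) = kod (K (gen F)) + base F ∧ kod (K C) = kod (K (tot F)) ∧
      nu (K C) = nu (K (tot F)) ∧ 0 < c ∧ kod (K C + c • B) = dim C ∧
      (K (tot F) - H F ∈ psef (tot F) → K C - B ∈ psef C)
  /-- If `S` has maximal Albanese dimension and `K_X + Δ` is abundant over `S`, then it is abundant
  (Fujino; Hu). -/
  hu : ∀ F, alb F → K (tot F) ∈ psef (tot F) → kod (K (gen F)) = nu (K (gen F)) →
    kod (K (tot F)) = nu (K (tot F))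
  /-- `Iit A F`, for a divisor `A` on `(X, Δ)`: the fibration `F` is the Iitaka fibration `X' → S` of `A`
  on a log resolution `X' → X`, where `K_{X'} + Δ'` is the sum of the inverse image of `K_X + Δ` and
  an effective exceptional divisor. -/
  Iit : ∀ {X}, Div X → Fib → Prop
  iit_ex : ∀ X (A : Div X), klt X → A ∈ eff X → ∃ F, Iit A F
  /-- The inverse image of `A` minus that of a small ample divisor on the base is `ℚ`-linearly
  equivalent to an effective divisor (Iitaka). -/
  iit : ∀ X (A : Div X) F, Iit A F → kod A = base F ∧ dim (tot F) = dim X ∧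
    kod (K (tot F)) = kod (K X) ∧ nu (K (tot F)) = nu (K X) ∧
    (K X - A ∈ psef X → K (tot F) - H F ∈ psef (tot F))
  /-- `compl X E U` means that `U = (X', Γ + Δ'')`, where `X' → X` is a log resolution of
  `(X, Δ + E')`, `E'` is an effective divisor in the class `E`, `Γ` is the inverse image of its
  support, and `Δ''` is the part outside `Γ` of `Δ'`, for `Δ'` as in `Iit`.  If `X` is smooth and `Δ = 0`
  then `κ(K_{X'} + Γ + Δ'')` is the log Kodaira dimension of the complement of `E'`. -/
  compl : ∀ X, Div X → Pair → Prop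
  /-- If `K_X + Δ - E` is pseudo-effective then so is `c(K_{X'} + Δ') - (K_{X'} + Γ + Δ'')` for
  large `c`. -/
  compl_nu : ∀ X E U, compl X E U → K X - E ∈ psef X → nu (K U) ≤ nu (K X)
  /-- The Iitaka fibration of `U`, with the boundary `Δ'`; `P` is the very general fibre with the
  restriction of `Γ + Δ''`, which is at least `Δ'`. -/
  iit_compl : ∀ X E U, klt X → K X ∈ psef X → compl X E U → 0 ≤ kod (K U) →
    ∃ F P, kod (K U) = base F ∧ dim (tot F) = dim X ∧ kod (K (tot F)) = kod (K X) ∧
      nu (K (tot F)) = nu (K X) ∧ K (tot F) ∈ psef (tot F) ∧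
      dim P = dim (gen F) ∧ kod (K P) = 0 ∧ nu (K (gen F)) ≤ nu (K P)

/-- `G` is a very general fibre of the Iitaka fibration of `A`, or a very general fibre of a fibration
of such a fibre over a variety of maximal Albanese dimension. -/
def Fibrations.Over (T : Fibrations) {X : T.Pair} (A : T.Div X) (G : T.Pair) : Prop :=
  ∃ F, T.Iit A F ∧ (G = T.gen F ∨ ∃ F', T.alb F' ∧ T.tot F' = T.gen F ∧ G = T.gen F')

/-- There is an effective divisor `E` on `G` whose complement `U` has log Kodaira dimension
`κ(U) ≥ 0` with `dim G - κ(U) ≤ m + 1`, such that either `K_G - E` is pseudo-effective or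
`κ(U) ≤ m` (`K_G` and `κ(U)` include the boundary of `G`).  This holds for `E = 0` if `κ(K_G) ≥ 0` and
`dim G - κ(K_G) ≤ m + 1`, and also if `G` has a fibration over `S` with very general fibre `P` such
that `κ(K_P) = κ_σ(K_P) ≥ 0`, `dim P ≤ m + 1` and `dim S + κ(K_P) ≤ m`: let `E` be the inverse image
of a very ample divisor on the relative canonical model. -/
def Fibrations.Open (T : Fibrations) (m : ℕ) (G : T.Pair) : Prop :=
  ∃ E U, T.compl G E U ∧ 0 ≤ T.kod (T.K U) ∧
    (T.dim G : WithBot ℕ) ≤ T.kod (T.K U) + (m + 1 : ℕ) ∧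
    (T.K G - E ∈ T.psef G ∨ T.kod (T.K U) ≤ m)

/-- The pairs `(Y, Γ + S + Δ)`, with the facts and published theorems used in the induction. -/
structure Theory extends Fibrations where
  /-- Abundance in dimension `≤ 3` (Kawamata; Miyaoka; Keel, Matsuki, McKernan). -/
  abundance_three : toPairs.Abundance 4
  /-- Nonvanishing for smooth varieties of dimension `≤ n` implies nonvanishing for klt pairs of
  dimension `≤ n` (Hashizume). -/
  nonvanishing : ∀ n, (∀ X, smooth X → dim X ≤ n → toPairs.Nonvanishing X) →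
    ∀ X, klt X → dim X ≤ n → toPairs.Nonvanishing X
  /-- The projective `ℚ`-factorial dlt pairs `(Y, Γ + S + Δ)`, with `Γ`, `S` reduced, `⌊Δ⌋ = 0`, and
  `L = K_Y + Γ + S + Δ` `ℚ`-linearly equivalent to an effective divisor `D'` with `Supp D' = Γ`. -/
  LC : Type
  /-- The dimension of `Y`. -/
  ldim : LC → ℕ
  /-- The Iitaka dimension of `L`. -/
  lkod : LC → WithBot ℕ
  /-- The numerical dimension `κ_σ` of `L`. -/
  lnu : LC → WithBot ℕ
  /-- `L` is nef. -/
  nef : LC → Prop
  /-- `L|_Γ` is semiample. -/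
  semi : LC → Prop
  /-- `Y` is covered by subvarieties of dimension `dim Y - ν(L)` on which `L` is numerically
  trivial. -/
  covered : LC → Prop
  /-- Take a log resolution `(X', Δ')` on which `K_{X'} + Δ'` is linearly equivalent to an effective
  divisor `D` whose support `Γ` has normal crossings with `Δ'`, and replace `Δ'` by `Γ + S + Δ''`,
  where `S + Δ''` is the part of `Δ'` outside `Γ`.  The new log canonical divisor is equivalent to an
  effective divisor with the same support `Γ`, so `κ` and `κ_σ` do not change. -/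
  support : ∀ X, K X ∈ eff X → ∃ Y, ldim Y = dim X ∧ lkod Y = kod (K X) ∧ lnu Y = nu (K X)
  /-- If abundance holds for klt pairs of smaller dimension then `(Y, Γ + S + Δ)` has a log minimal
  model: special termination (Shokurov; Fujino), since every step of the program meets `Γ` (Birkar;
  Lazić, Tsakanikas). -/
  minimal : ∀ Y, toPairs.Abundance (ldim Y) → ∃ Y', nef Y' ∧ ldim Y' = ldim Y ∧
    lkod Y' = lkod Y ∧ lnu Y' = lnu Y
  /-- If abundance holds for klt pairs of smaller dimension then `L|_Γ`, which is the log canonical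
  divisor of a semi log canonical pair (`O_Y(-Γ)` is Cohen-Macaulay), is semiample (Fujino; Gongyo;
  Fujino, Gongyo; Hacon, Xu). -/
  slc : ∀ Y, nef Y → toPairs.Abundance (ldim Y) → semi Y
  /-- The thickenings of `Γ`. -/
  nbhd : ∀ Y, nef Y → semi Y → FormalNbhd
  /-- The formal flat families, over the formal power series ring in `ν(L)` variables, of closed
  subschemes of `Y`, whose total space is the completion of `Y` along the closed fibre, and whose
  closed fibre has dimension `dim Y - ν(L)` with `L` numerically trivial on it. -/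
  Fam : LC → Type
  /-- Let `c` be a general point of a component of `Z` of dimension `ν(L) - 1`, let `t` be formal
  functions which extend local coordinates at `c`, and `h = τ/e` for a formal section `e`.  `Y` is
  Cohen-Macaulay since `(Y, Δ)` is klt (Elkik), so `(t, h)` is a regular sequence at the points of
  `f⁻¹(c)`, and the formal map `(t, h)` is flat there, with fibres of dimension `dim Y - ν(L)`.  If
  `ν(L) = 0` then `Γ` is empty and the family is `Y`. -/
  family : ∀ Y h h', (nbhd Y h h').Extends → Nonempty (Fam Y)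
  /-- Such a family is induced by a map from the spectrum of the power series ring to the Hilbert
  scheme of `Y` (Grothendieck).  The subschemes in an irreducible component of the Hilbert scheme
  which contains the image cover `Y`, since the formal family dominates `Y`; they have dimension
  `dim Y - ν(L)`, and `L` is numerically trivial on them, since `L` is nef and its degree on them
  (with respect to an ample divisor) is constant, hence zero. -/
  hilbert : ∀ Y, nef Y → Fam Y → covered Y
  /-- The nef reduction of `L` (Bauer, Campana, Eckl, Kebekus, Peternell, Rams, Szemberg, Wotzlaw) has a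
  base of dimension `ν(L)`.  Its general fibre does not meet `Γ`, so `L` is `ℚ`-linearly trivial on
  it.  Since `L` is nef, it follows (Kawamata: flattening and Zariski's lemma) that on a birational
  model `L` is `ℚ`-linearly equivalent to the inverse image of a divisor `A` on a smooth model `X` of
  the base. -/
  reduction : ∀ Y, nef Y → covered Y → ∃ (X : Pair) (A : Div X), lnu Y = dim X ∧ nu A = lnu Y ∧
    kod A = lkod Y

namespace Theory

variable (T : Theory)

theorem nu_nonneg (X : T.Pair) (h : T.K X ∈ T.psef X) : 0 ≤ T.nu (T.K X) := by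
  have h1 := T.nu_mono X 0 (T.K X) (by rwa [sub_zero])
  have h2 := T.kod_le_nu X 0
  rw [T.kod_zero] at h2
  exact h2.trans h1

/-- `κ(L) = ν(L)` if `L` is nef and `L|_Γ` is semiample. -/
theorem semi_abundant (Y : T.LC) (h : T.nef Y) (h' : T.semi Y) : T.lkod Y = T.lnu Y := by
  obtain ⟨φ⟩ := T.family Y h h' (T.nbhd Y h h').exts
  obtain ⟨X, A, h1, h2, h3⟩ := T.reduction Y h (T.hilbert Y h φ)
  rw [← h3, T.big_of_nu X A (by rw [h2, h1]), h1]

/-- Abundance for log canonical pairs with `ℚ`-effective `K_X + Δ`, assuming abundance in smaller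
dimensions. -/
theorem eff_abundant (X : T.Pair) (h0 : T.K X ∈ T.eff X) (h : T.Abundance (T.dim X)) :
    T.kod (T.K X) = T.nu (T.K X) := by
  obtain ⟨Y, h1, h2, h3⟩ := T.support X h0
  obtain ⟨Y', h4, h5, h6, h7⟩ := T.minimal Y (by rw [h1]; exact h)
  rw [← h2, ← h3, ← h6, ← h7]
  exact T.semi_abundant Y' h4 (T.slc Y' h4 (by rw [h5, h1]; exact h))

/-- Nonvanishing in dimension `≤ 3`. -/
theorem nonvanishing_three (X : T.Pair) (h0 : T.klt X) (h : T.dim X ≤ 3) : T.Nonvanishing X := by
  intro hp
  rw [← T.kod_nonneg, T.abundance_three X h0 (by omega) hp]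
  exact T.nu_nonneg X hp

/-- Nonvanishing implies abundance. -/
theorem abundance (n : ℕ) (hn : ∀ X, T.smooth X → 4 ≤ T.dim X → T.dim X ≤ n → T.Nonvanishing X) :
    T.Abundance (max 3 n + 1) := by
  have hN : ∀ X, T.klt X → T.dim X ≤ max 3 n → T.Nonvanishing X := by
    refine T.nonvanishing (max 3 n) ?_
    intro X h0 h1
    by_cases h3 : T.dim X ≤ 3
    · exact T.nonvanishing_three X (T.klt_smooth X h0) h3
    · exact hn X h0 (by omega) (by omega)
  have main : ∀ m ≤ max 3 n + 1, T.Abundance m := by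
    intro m
    induction m with
    | zero => intro _ X _ h; omega
    | succ m ih =>
      intro hm X hk hX hp
      refine T.eff_abundant X (hN X hk (by omega) hp) ?_
      intro X' hk' hX' hp'
      exact ih (by omega) X' hk' (by omega) hp'
  exact main _ le_rfl

/-- If a very general fibre satisfies abundance, and `K_X + Δ - H` is pseudo-effective, then `X`
satisfies abundance. -/
theorem of_fibre (F : T.Fib) (hF : T.K (T.tot F) - T.H F ∈ T.psef (T.tot F))
    (h : T.kod (T.K (T.gen F)) = T.nu (T.K (T.gen F))) :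
    T.kod (T.K (T.tot F)) = T.nu (T.K (T.tot F)) := by
  have h0 := T.psef_add _ _ _ hF (T.H_eff F)
  rw [sub_add_cancel] at h0
  obtain ⟨C, B, c, -, -, -, h1, h2, h3, h4, h5⟩ := T.canonical F h0 h
  have hc : 0 < 1 + c := by linarith
  have e : T.K C = (1 + c)⁻¹ • (T.K C + c • B) + (c * (1 + c)⁻¹) • (T.K C - B) := by
    rw [smul_add, smul_sub, smul_smul, mul_comm (1 + c)⁻¹ c]
    have h6 : (1 + c)⁻¹ • T.K C + (c * (1 + c)⁻¹) • T.K C = T.K C := by
      rw [← add_smul]
      have h7 : (1 + c)⁻¹ + c * (1 + c)⁻¹ = 1 := by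
        field_simp
      rw [h7, one_smul]
    nth_rewrite 1 [← h6]
    abel
  have h8 := T.big C ((1 + c)⁻¹ • (T.K C + c • B)) ((c * (1 + c)⁻¹) • (T.K C - B))
    (by rw [T.kod_smul C _ _ (by positivity), h4])
    (T.psef_smul C (c * (1 + c)⁻¹) _ (by positivity) (h5 hF))
  rw [← e] at h8
  have h9 := T.kod_le_nu C (T.K C)
  have h10 := T.nu_le_dim C (T.K C)
  rw [← h1, ← h2, h8]
  rw [h8] at h9
  exact le_antisymm h9 h10

/-- Abundance for the klt pairs which contain an open set as in `Fibrations.Open`. -/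
theorem open_abundant (m : ℕ) (hm : T.Abundance (m + 1)) (X : T.Pair) (hX : T.klt X)
    (hp : T.K X ∈ T.psef X) (h : T.Open m X) : T.kod (T.K X) = T.nu (T.K X) := by
  obtain ⟨E, U, hU, h0, hd, hE⟩ := h
  obtain ⟨F, P, h1, h2, h3, h4, h5, h6, h7, h8⟩ := T.iit_compl X E U hX hp hU h0
  have h9 := T.dim_gen F
  rw [h1] at hd
  have hd' : T.dim X ≤ T.base F + (m + 1) := by exact_mod_cast hd
  have h10 : T.kod (T.K P) = T.nu (T.K P) := by
    refine T.eff_abundant P ((T.kod_nonneg _ _).1 (by rw [h7])) ?_
    intro X' hk hX' hp'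
    exact hm X' hk (by omega) hp'
  rw [h7] at h10
  rw [← h10] at h8
  have h11 : T.nu (T.K (T.gen F)) = 0 := le_antisymm h8 (T.nu_nonneg _ (T.psef_gen F h5))
  have h12 := T.nakayama _ (T.klt_gen F) h11
  obtain ⟨C, B, c, h13, h14, h15, h16, h17, -⟩ := T.canonical F h5 (by rw [h11, h12])
  rw [h12, zero_add, ← h1] at h15
  rw [← h3, ← h4, ← h16, ← h17]
  rcases hE with hE | hE
  · have h18 : T.nu (T.K C) = T.dim C := by
      refine le_antisymm (T.nu_le_dim C _) ?_
      rw [h15, h17, h4]
      exact (T.kod_le_nu U _).trans (T.compl_nu X E U hU hE)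
    rw [h18, T.big_of_nu C _ h18]
  · refine hm C h13 ?_ h14
    rw [← h15] at hE
    have hE' : T.dim C ≤ m := by exact_mod_cast hE
    omega

end Theory

/-- Let nonvanishing hold for the smooth projective varieties of dimension `4, ..., n`, and let
`N = max(3, n)`.  Let `(X, Δ)` be klt and `K_X + Δ ~ A + B` with `A` effective and `B`
pseudo-effective.  Then `κ(A) ≤ κ(K_X + Δ) = κ_σ(K_X + Δ)`, provided that either
`dim X - κ(A) ≤ N`, or for one `G` as in `Fibrations.Over` we have `dim G ≤ N`, or `dim G ≤ N + 1` and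
`κ(K_X + Δ) ≥ 0`, or `Fibrations.Open`. -/
theorem result (T : Theory) (n : ℕ)
    (h : ∀ X, T.smooth X → 4 ≤ T.dim X → T.dim X ≤ n → T.Nonvanishing X)
    (X : T.Pair) (hX : T.klt X) (A B : T.Div X) (hA : A ∈ T.eff X) (hB : B ∈ T.psef X)
    (hK : T.K X = A + B)
    (hd : (T.dim X : WithBot ℕ) ≤ T.kod A + (max 3 n : ℕ) ∨
      ∃ G, T.Over A G ∧ (T.dim G ≤ max 3 n ∨
        (T.dim G ≤ max 3 n + 1 ∧ 0 ≤ T.kod (T.K X)) ∨ T.Open (max 3 n) G)) :
    T.kod A ≤ T.kod (T.K X) ∧ T.kod (T.K X) = T.nu (T.K X) := by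
  have hab := T.abundance n h
  have hB' : T.K X - A ∈ T.psef X := by
    rw [hK, add_sub_cancel_left]
    exact hB
  have hfin : ∀ F, T.Iit A F → T.kod (T.K (T.gen F)) = T.nu (T.K (T.gen F)) →
      T.kod (T.K X) = T.nu (T.K X) := by
    intro F hF hG
    obtain ⟨-, -, h1, h2, h3⟩ := T.iit X A F hF
    rw [← h1, ← h2]
    exact T.of_fibre F (h3 hB') hG
  have hpF : ∀ F, T.Iit A F → T.K (T.gen F) ∈ T.psef (T.gen F) := by
    intro F hF
    obtain ⟨-, -, -, -, h3⟩ := T.iit X A F hF
    have h4 := T.psef_add _ _ _ (h3 hB') (T.H_eff F)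
    rw [sub_add_cancel] at h4
    exact T.psef_gen F h4
  have main : T.kod (T.K X) = T.nu (T.K X) := by
    rcases hd with hd | ⟨G, ⟨F, hF, hG⟩, hc⟩
    · obtain ⟨F, hF⟩ := T.iit_ex X A hX hA
      obtain ⟨h1, h2, -, -, -⟩ := T.iit X A F hF
      have h3 := T.dim_gen F
      rw [h1] at hd
      have hd' : T.dim X ≤ T.base F + max 3 n := by exact_mod_cast hd
      exact hfin F hF (hab (T.gen F) (T.klt_gen F) (by omega) (hpF F hF))
    · have key : ∀ G, T.klt G → T.K G ∈ T.psef G → (0 ≤ T.kod (T.K X) → T.K G ∈ T.eff G) →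
          (T.dim G ≤ max 3 n ∨ (T.dim G ≤ max 3 n + 1 ∧ 0 ≤ T.kod (T.K X)) ∨
            T.Open (max 3 n) G) → T.kod (T.K G) = T.nu (T.K G) := by
        intro G hk hG he hc
        rcases hc with hc | ⟨hc, h0⟩ | hc
        · exact hab G hk (by omega) hG
        · refine T.eff_abundant G (he h0) ?_
          intro X' hk' hX' hp'
          exact hab X' hk' (by omega) hp'
        · exact T.open_abundant (max 3 n) hab G hk hG hc
      refine hfin F hF ?_
      have heF : 0 ≤ T.kod (T.K X) → T.K (T.gen F) ∈ T.eff (T.gen F) := by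
        intro h0
        obtain ⟨-, -, h1, -, -⟩ := T.iit X A F hF
        refine T.eff_gen F ((T.kod_nonneg _ _).1 ?_)
        rw [h1]
        exact h0
      rcases hG with rfl | ⟨F', ha, hF', rfl⟩
      · exact key _ (T.klt_gen F) (hpF F hF) heF hc
      · have hp' : T.K (T.tot F') ∈ T.psef (T.tot F') := by
          rw [hF']
          exact hpF F hF
        have he' : 0 ≤ T.kod (T.K X) → T.K (T.tot F') ∈ T.eff (T.tot F') := by
          rw [hF']
          exact heF
        have h1 := T.hu F' ha hp'
          (key _ (T.klt_gen F') (T.psef_gen F' hp') (fun h0 => T.eff_gen F' (he' h0)) hc)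
        rwa [hF'] at h1
  refine ⟨?_, main⟩
  rw [main]
  exact (T.kod_le_nu X A).trans (T.nu_mono X A (T.K X) hB')

end Pool.NVS.Old
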