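import Pool.Agent.H70.NVS.Defs
import Pool.Agent.H70.NVS.Old

/-!
From the flat structures of `Defs` to those of `Old`.
-/

noncomputable section

namespace Pool.NVS

def FormalNbhd.tower (Y : FormalNbhd) : Old.Tower where
  Op := Y.Op
  sub := Y.sub
  A := fun j D => Y.A j D
  ring := fun j D => inferInstanceAs (CommRing (Y.A j D))
  alg := fun j D => inferInstanceAs (Algebra ℂ (Y.A j D))
  toO := Y.toO
  toO_zero := Y.toO_zero
  tr := Y.tr
  toO_tr := Y.toO_tr
  res := Y.res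
  toO_res := Y.toO_res
  r := Y.r
  r_pos := Y.r_pos
  x := Y.x

def FormalNbhd.obs (Y : FormalNbhd) : Old.Obstructions Y.tower where
  R := fun j D => Y.R j D
  grp := fun j D => inferInstanceAs (AddCommGroup (Y.R j D))
  mod := fun j D => inferInstanceAs (Module (Y.A 0 D) (Y.R j D))
  modC := fun j D => Module.compHom (Y.R j D) (algebraMap ℂ (Y.A 0 D))
  res := Y.resR
  ob := Y.ob
  ob_add := Y.ob_add
  ob_smul := Y.ob_smul
  ob_mul := Y.ob_mul
  ob_res := Y.ob_res
  ob_exact := Y.ob_exact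
  T := Y.T
  T_zero := Y.T_zero
  trT := Y.trT
  obT := Y.obT
  obT_exact := Y.obT_exact

def FormalNbhd.lifts (Y : FormalNbhd) (D : Y.tower.Op) : Old.Lifts Y.obs D where
  Ω := Y.Ω D
  grp := inferInstanceAs (AddCommGroup (Y.Ω D))
  mod := inferInstanceAs (Module ℂ (Y.Ω D))
  d := Y.d D
  d_d := Y.d_d D
  One := Y.One D
  w := Y.w D
  d_w := Y.d_w D
  w_w := Y.w_w D
  V := Y.V D
  V_succ := Y.V_succ D
  s := Y.s D
  s_V := Y.s_V D
  d_s := Y.d_s D
  lift := Y.lift D
  lift_ex := Y.lift_ex D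
  lift_zero := Y.lift_zero D
  lift_s := Y.lift_s D
  liftT := Y.liftT D
  liftT_ex := Y.liftT_ex D
  liftT_zero := Y.liftT_zero D
  liftT_s := Y.liftT_s D

theorem FormalNbhd.isBase (Y : FormalNbhd) (D : Y.tower.Op)
    (θ : Option (Fin (Y.tower.r D)) → (Y.lifts D).One) (h : (Y.lifts D).IsBase θ) :
    Y.base D θ := (Y.base_iff D θ).2 h

theorem FormalNbhd.dif' (Y : FormalNbhd) (D : Y.tower.Op)
    (θ : Option (Fin (Y.tower.r D)) → (Y.lifts D).One) (z : (Y.lifts D).K (Y.tower.r D)) :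
    (Y.lifts D).D θ z = Y.dif D θ z := by
  refine Eq.trans ?_ (Y.dif_eq D θ z).symm
  unfold Old.Forms.D
  rw [LinearMap.sub_apply, LinearMap.sum_apply]
  rfl

theorem FormalNbhd.nilp' (Y : FormalNbhd) (D : Y.tower.Op)
    (θ : Option (Fin (Y.tower.r D)) → (Y.lifts D).One) (h : (Y.lifts D).IsBase θ) :
    (Y.lifts D).Nilpotent θ Y.N := by
  intro k z hz hDz
  rw [Y.dif' D θ] at hDz
  obtain ⟨n, y, hy⟩ := Y.nilp D θ (Y.isBase D θ h) k z hz hDz
  refine ⟨n, y, ?_⟩
  rw [Y.dif' D θ]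
  exact hy

def FormalNbhd.hodge (Y : FormalNbhd) (j : ℕ) (D : Y.tower.Op) :
    Old.Hodge (Y.lifts D) Y.N j where
  M := Y.M j D
  grp := inferInstanceAs (AddCommGroup (Y.M j D))
  mod := inferInstanceAs (Module (MvPolynomial (Option (Fin (Y.r D))) ℂ) (Y.M j D))
  rep := Y.rep j D
  rep_add := Y.rep_add j D
  rep_smul := Y.rep_smul j D
  rep_bd := by
    intro θ hθ z m h1 h2
    refine Y.rep_bd j D θ (Y.isBase D θ hθ) z m h1 ?_
    obtain ⟨a, ha, b, hb, hab⟩ := Submodule.mem_sup.1 h2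
    obtain ⟨y, hy, hyb⟩ := Submodule.mem_map.1 hb
    refine ⟨y, hy, ?_⟩
    have h3 : (z - (Y.lifts D).D θ y : (Y.lifts D).K (Y.tower.r D)) ∈
        (Y.lifts D).fil (Y.tower.r D) (j + 2) := by
      rw [hyb, ← hab, add_sub_cancel_right]
      exact ha
    rw [Y.dif' D θ y] at h3
    exact h3
  P := Y.R j D
  mul := id
  mul_inj := Function.injective_id
  incl := Y.φ j D
  incl_inj := Y.φ_inj j D
  s_add := Y.φ_add j D
  s_ob := fun θ hθ t a h => Y.rep_ob j D θ (Y.isBase D θ hθ) t a h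
  s_obT := fun θ hθ e a h => Y.rep_obT j D θ (Y.isBase D θ hθ) e a h
  mulx := Y.mulx j D
  mulx_zero := Y.mulx_zero j D
  weyl := Y.weyl j D
  s_x := Y.φ_x j D
  W := Y.W j D
  W_mono := Y.W_mono j D
  N_W := Y.N_W j D

def FormalNbhd.level (Y : FormalNbhd) (j : ℕ) : Old.Level Y.lifts Y.N j where
  H := Y.hodge j
  lo := Y.lo j
  len := Y.len j
  W_lo := Y.W_lo j
  W_hi := Y.W_hi j
  vanish := by
    intro k v h1 h2 D z
    refine Y.vanish j k (fun D z => v.δ D z) ?_ ?_ h1 h2 D z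
    · intro D
      refine ⟨fun a b => (v.δ D).map_add a b, fun a b => (v.δ D).leibniz a b, fun c => ?_⟩
      exact (v.δ D).map_algebraMap c
    · intro D D' h z
      exact v.res D D' h z

def FormalNbhd.toOld (Y : FormalNbhd) : Old.FormalNbhd where
  F := Y.tower
  G := Y.obs
  S := Y.lifts
  N := Y.N
  nilp := Y.nilp'
  level := Y.level

theorem FormalNbhd.exts (Y : FormalNbhd) : Y.Extends := Y.toOld.exts

def Theory.toOld (T : Theory) : Old.Theory where
  Pair := T.Pair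
  klt := T.klt
  smooth := T.smooth
  klt_smooth := T.klt_smooth
  dim := T.dim
  Div := fun X => T.Div X
  grp := fun X => inferInstanceAs (AddCommGroup (T.Div X))
  mod := fun X => inferInstanceAs (Module ℚ (T.Div X))
  K := T.K
  eff := fun X => {D | T.eff X D}
  psef := fun X => {D | T.psef X D}
  kod := fun {X} D => T.kod X D
  nu := fun {X} D => T.nu X D
  kod_nonneg := T.kod_nonneg
  kod_zero := T.kod_zero
  kod_smul := T.kod_smul
  kod_le_nu := T.kod_le_nu
  nu_le_dim := T.nu_le_dim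
  nu_mono := T.nu_mono
  psef_smul := T.psef_smul
  psef_add := T.psef_add
  big := T.big
  big_of_nu := T.big_of_nu
  nakayama := T.nakayama
  Fib := T.Fib
  tot := T.tot
  gen := T.gen
  base := T.bdim
  H := T.H
  H_eff := T.H_eff
  alb := T.alb
  klt_gen := T.klt_gen
  dim_gen := T.dim_gen
  psef_gen := T.psef_gen
  eff_gen := T.eff_gen
  canonical := T.canonical
  hu := T.hu
  Iit := fun {X} A F => T.Iit X A F
  iit_ex := T.iit_ex
  iit := T.iit
  compl := T.compl
  compl_nu := T.compl_nu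
  iit_compl := T.iit_compl
  abundance_three := T.abundance_three
  nonvanishing := T.nonvanishing
  LC := T.LC
  ldim := T.ldim
  lkod := T.lkod
  lnu := T.lnu
  nef := T.nef
  semi := T.semi
  covered := T.covered
  support := T.support
  minimal := T.minimal
  slc := T.slc
  nbhd := fun Y h h' => (T.nbhd Y h h').toOld
  Fam := T.Fam
  family := fun Y h h' _ => T.family Y h h' (T.nbhd Y h h').exts
  hilbert := T.hilbert
  reduction := T.reduction

theorem main (T : Theory) (n : ℕ)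
    (h : ∀ X, T.smooth X → 4 ≤ T.dim X → T.dim X ≤ n → T.psef X (T.K X) → T.eff X (T.K X))
    (X : T.Pair) (hX : T.klt X) (A B : T.Div X) (hA : T.eff X A) (hB : T.psef X B)
    (hK : T.K X = A + B)
    (hd : (T.dim X : WithBot ℕ) ≤ T.kod X A + (max 3 n : ℕ) ∨
      ∃ G, T.Over X A G ∧ (T.dim G ≤ max 3 n ∨
        (T.dim G ≤ max 3 n + 1 ∧ 0 ≤ T.kod X (T.K X)) ∨ T.Open (max 3 n) G)) :
    T.kod X A ≤ T.kod X (T.K X) ∧ T.kod X (T.K X) = T.nu X (T.K X) :=
  Old.result T.toOld n h X hX A B hA hB hK hd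

end Pool.NVS
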