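import Mathlib

/-!
Definitions for the hand-in NonvanishingSuffices (problem MP_370cf3_ag).  The two structures
`FormalNbhd` and `Theory` are flat: every field is stated with objects of the library
(`ModuleCat`, `CommAlgCat`, `MvPolynomial`, `TensorProduct`).

Conventions: `(Y, Γ + S + Δ)` is a projective `ℚ`-factorial dlt pair over `ℂ`, `Γ` and `S` reduced,
`⌊Δ⌋ = 0`, `L = K_Y + Γ + S + Δ` nef and `ℚ`-linearly equivalent to an effective `D'` with support `Γ`;
`m > 0` is sufficiently divisible, `τ` is a section of `mL` with divisor `mD'`, `mL|_Γ = f^*H` with `H`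
ample on `Z`, `f_* O_Γ = O_Z`; `π : W → Y` is a log resolution, `Σ ⊂ W` the inverse image of `Γ`, `S_W`
the strict transform of `S`, `n = dim Y`; `N` is a multiple of all denominators and
`I_k = O_Y(-⌈(k/N)D'⌉)`.  A form on `W` has order `≥ ρ` if, as a form with logarithmic poles, it
vanishes on `Σ` to the order `ρπ^*D'`.
-/

noncomputable section

namespace Pool.NVS

/-- `v` is a `ℂ`-derivation. -/
def IsDer (A : CommAlgCat.{0} ℂ) (R : ModuleCat.{0} A) (v : A → R) : Prop :=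
  (∀ a b, v (a + b) = v a + v b) ∧ (∀ a b, v (a * b) = a • v b + b • v a) ∧
    ∀ c : ℂ, v (algebraMap ℂ A c) = 0

/-- The thickenings of `Γ` in `Y`, and the nearby cycles along `Γ`. -/
structure FormalNbhd where
  /-- A basis of small Stein open subsets `D` of `Z`. -/
  Op : Type
  sub : Op → Op → Prop
  /-- The ring `H^0(Γ_D, O_Y/I_{j+1})`. -/
  A : ℕ → Op → CommAlgCat.{0} ℂ
  /-- Restriction to `Γ_D`. -/
  toO : ∀ j D, A j D →ₐ[ℂ] A 0 D
  toO_zero : ∀ D a, toO 0 D a = a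
  /-- Restriction to the previous thickening. -/
  tr : ∀ j D, A (j + 1) D → A j D
  toO_tr : ∀ j D a, toO j D (tr j D a) = toO (j + 1) D a
  /-- Restriction to a smaller open subset. -/
  res : ∀ j D D', sub D' D → A j D → A j D'
  toO_res : ∀ j D D' h a, toO j D' (res j D D' h a) = res 0 D D' h (toO j D a)
  /-- `D` is a closed subset of a polydisc of dimension `r D`, with coordinates `x`. -/
  r : Op → ℕ
  r_pos : ∀ D, 0 < r D
  x : ∀ D, Fin (r D) → A 0 D
  /-- The space `H^1(Γ_D, I_{j+1}/I_{j+2})`. -/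
  R : ∀ (_ : ℕ) (D : Op), ModuleCat.{0} (A 0 D)
  resR : ∀ j D D', sub D' D → R j D → R j D'
  /-- The connecting map of `0 → I_{j+1}/I_{j+2} → O_Y/I_{j+2} → O_Y/I_{j+1} → 0`. -/
  ob : ∀ j D, A j D → R j D
  ob_add : ∀ j D a b, ob j D (a + b) = ob j D a + ob j D b
  ob_smul : ∀ j D (c : ℂ) a, ob j D (c • a) = algebraMap ℂ (A 0 D) c • ob j D a
  ob_mul : ∀ j D a b, ob j D (a * b) = toO j D a • ob j D b + toO j D b • ob j D a
  ob_res : ∀ j D D' h a, ob j D' (res j D D' h a) = resR j D D' h (ob j D a)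
  ob_exact : ∀ j D a, ob j D a = 0 ↔ ∃ a', tr j D a' = a
  /-- The sections of `mL ⊗ O_Y/I_{j+1}` over `Γ_D` which restrict to `f^*e_D` on `Γ_D`. -/
  T : ℕ → Op → Type
  T_zero : ∀ D, Nonempty (T 0 D)
  trT : ∀ j D, T (j + 1) D → T j D
  obT : ∀ j D, T j D → R j D
  obT_exact : ∀ j D e, obT j D e = 0 ↔ ∃ e', trT j D e' = e
  /-- The smooth forms near `Σ_D` (values in the local system, logarithmic poles on `Σ` and `S_W`). -/
  Ω : Op → ModuleCat.{0} ℂ
  d : ∀ D, Module.End ℂ (Ω D)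
  d_d : ∀ D z, d D (d D z) = 0
  /-- The closed smooth forms of degree one, and the exterior product with them. -/
  One : Op → Type
  w : ∀ D, One D → Module.End ℂ (Ω D)
  d_w : ∀ D a z, d D (w D a z) = -w D a (d D z)
  w_w : ∀ D a b z, w D a (w D b z) = -w D b (w D a z)
  /-- The forms of order `≥ 1 + k/N`. -/
  V : ∀ D, ℕ → Submodule ℂ (Ω D)
  V_succ : ∀ D k, V D (k + 1) ≤ V D k
  /-- The form `s` of type `(n, 0)` with divisor `D' - Δ`. -/
  s : ∀ D, Ω D
  s_V : ∀ D, s D ∈ V D 0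
  d_s : ∀ D, d D (s D) = 0
  /-- `a` is the differential of a smooth lift of the function `t`. -/
  lift : ∀ D j, A j D → One D → Prop
  lift_ex : ∀ D j t, ∃ a, lift D j t a
  lift_zero : ∀ D j t a, lift D j t a → lift D 0 (toO j D t) a
  lift_s : ∀ D j t a, lift D j t a → w D a (s D) ∈ V D (j + 1)
  /-- `a` is the differential of `(1/(mN)) log(τ/e)` for a smooth lift `e`. -/
  liftT : ∀ D j, T j D → One D → Prop
  liftT_ex : ∀ D j e, ∃ a, liftT D j e a
  liftT_zero : ∀ D j e a, liftT D j e a → ∃ e₀, liftT D 0 e₀ a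
  liftT_s : ∀ D j e a, liftT D j e a → w D a (s D) ∈ V D (j + 1)
  /-- The forms `θ_i`, `θ_ℓ` come from smooth lifts of the `x_i` and of `f^*e_D`. -/
  base : ∀ D, (Option (Fin (r D)) → One D) → Prop
  base_iff : ∀ D θ, base D θ ↔ (∀ i, lift D 0 (x D i) (θ (some i))) ∧ ∃ e₀, liftT D 0 e₀ (θ none)
  /-- The differential `d - ∑ ∂_i θ_i ∧ - ∂_ℓ θ_ℓ ∧` of `Ω[∂_1, ..., ∂_r, ∂_ℓ]` (`∂_ℓ` is the variable
  `none`, `∂_i` is `some i`). -/
  dif : ∀ D, (Option (Fin (r D)) → One D) →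
    TensorProduct ℂ (MvPolynomial (Option (Fin (r D))) ℂ) (Ω D) →
    TensorProduct ℂ (MvPolynomial (Option (Fin (r D))) ℂ) (Ω D)
  dif_eq : ∀ D θ z, dif D θ z = (d D).baseChange (MvPolynomial (Option (Fin (r D))) ℂ) z -
    ∑ o, (MvPolynomial.X o : MvPolynomial (Option (Fin (r D))) ℂ) •
      (w D (θ o)).baseChange (MvPolynomial (Option (Fin (r D))) ℂ) z
  /-- The theorem of Kashiwara and Malgrange: `∂_ℓ - (N + k)` is nilpotent on the cohomology of the
  graded piece of order `1 + k/N`. -/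
  N : ℕ
  nilp : ∀ D θ, base D θ → ∀ k, ∀ z ∈ (V D k).baseChange (MvPolynomial (Option (Fin (r D))) ℂ),
    dif D θ z ∈ (V D (k + 1)).baseChange (MvPolynomial (Option (Fin (r D))) ℂ) →
    ∃ (n : ℕ) (y : TensorProduct ℂ (MvPolynomial (Option (Fin (r D))) ℂ) (Ω D)),
      (MvPolynomial.X none - ((N + k : ℕ) : MvPolynomial (Option (Fin (r D))) ℂ)) ^ n • z -
        dif D θ y ∈ (V D (k + 1)).baseChange (MvPolynomial (Option (Fin (r D))) ℂ)
  /-- The cohomology of degree one of the graded piece of order `1 + (j+1)/N`; `rep θ z m`: `z` is a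
  cocycle modulo order `1 + (j+2)/N` and `m` is its class. -/
  M : ∀ (_ : ℕ) (D : Op), ModuleCat.{0} (MvPolynomial (Option (Fin (r D))) ℂ)
  rep : ∀ j D, (Option (Fin (r D)) → One D) →
    TensorProduct ℂ (MvPolynomial (Option (Fin (r D))) ℂ) (Ω D) → M j D → Prop
  rep_add : ∀ j D θ z z' m m', rep j D θ z m → rep j D θ z' m' → rep j D θ (z + z') (m + m')
  rep_smul : ∀ j D θ (c : MvPolynomial (Option (Fin (r D))) ℂ) z m, rep j D θ z m →
    rep j D θ (c • z) (c • m)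
  rep_bd : ∀ j D θ, base D θ → ∀ z m, rep j D θ z m →
    (∃ y ∈ (V D (j + 1)).baseChange (MvPolynomial (Option (Fin (r D))) ℂ),
      z - dif D θ y ∈ (V D (j + 2)).baseChange (MvPolynomial (Option (Fin (r D))) ℂ)) → m = 0
  /-- Multiplication by `s`: `H^1(Γ_D, I_{j+1}/I_{j+2}) = F_0 M` (Kawamata, Viehweg), and the Hodge
  filtration is strict (Saito). -/
  φ : ∀ j D, R j D → M j D
  φ_inj : ∀ j D, Function.Injective (φ j D)
  φ_add : ∀ j D a b, φ j D (a + b) = φ j D a + φ j D b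
  rep_ob : ∀ j D θ, base D θ → ∀ t a, lift D j t a →
    rep j D θ (TensorProduct.tmul ℂ 1 (w D a (s D))) (φ j D (ob j D t))
  rep_obT : ∀ j D θ, base D θ → ∀ e a, liftT D j e a →
    rep j D θ (TensorProduct.tmul ℂ 1 (w D a (s D))) (φ j D (obT j D e))
  /-- Multiplication by `x_i`. -/
  mulx : ∀ j D, Fin (r D) → M j D → M j D
  mulx_zero : ∀ j D i, mulx j D i 0 = 0
  weyl : ∀ j D i m, (MvPolynomial.X (some i) : MvPolynomial (Option (Fin (r D))) ℂ) •
    mulx j D i m = mulx j D i ((MvPolynomial.X (some i) : MvPolynomial (Option (Fin (r D))) ℂ) • m)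
      + m
  φ_x : ∀ j D i a, φ j D (x D i • a) = mulx j D i (φ j D a)
  /-- The weight filtration; `∂_ℓ - (N + j + 1)` lowers the weights by `2` (Saito). -/
  W : ∀ j D, ℤ → Submodule (MvPolynomial (Option (Fin (r D))) ℂ) (M j D)
  W_mono : ∀ j D, Monotone (W j D)
  N_W : ∀ j D k, ∀ m ∈ W j D k,
    (MvPolynomial.X none - ((N + (j + 1) : ℕ) : MvPolynomial (Option (Fin (r D))) ℂ)) • m ∈
      W j D (k - 2)
  lo : ℕ → ℤ
  len : ℕ → ℕ
  W_lo : ∀ j D, W j D (lo j) = ⊥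
  W_hi : ∀ j D, W j D (lo j + len j) = ⊤
  /-- The vanishing theorem of Kodaira and Saito: `ker (F_0 G ⊗ T → Gr^F_1 G)` has no global section,
  for `G = Gr^W_k M`, twisted by a negative line bundle. -/
  vanish : ∀ j k (v : ∀ D, A 0 D → R j D), (∀ D, IsDer (A 0 D) (R j D) (v D)) →
    (∀ D D' h z, resR j D D' h (v D z) = v D' (res 0 D D' h z)) →
    (∀ D z, φ j D (v D z) ∈ W j D k) →
    (∀ D, ∃ a, ∑ i, (MvPolynomial.X (some i) : MvPolynomial (Option (Fin (r D))) ℂ) •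
      φ j D (v D (x D i)) - φ j D a ∈ W j D (k - 1)) →
    ∀ D z, φ j D (v D z) ∈ W j D (k - 1)

/-- The fibration `Γ → Z` extends to the formal neighbourhood of `Γ`. -/
def FormalNbhd.Extends (Y : FormalNbhd) : Prop :=
  (∀ D (z : Y.A 0 D), ∃ a : ∀ j, Y.A j D, a 0 = z ∧ ∀ j, Y.tr j D (a (j + 1)) = a j) ∧
  ∀ D, ∃ e : ∀ j, Y.T j D, ∀ j, Y.trT j D (e (j + 1)) = e j

/-- Complex projective log canonical pairs and published theorems on them. -/
structure Theory where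
  Pair : Type
  klt : Pair → Prop
  smooth : Pair → Prop
  klt_smooth : ∀ X, smooth X → klt X
  dim : Pair → ℕ
  Div : Pair → ModuleCat.{0} ℚ
  K : ∀ X, Div X
  eff : ∀ X, Div X → Prop
  psef : ∀ X, Div X → Prop
  kod : ∀ X, Div X → WithBot ℕ
  nu : ∀ X, Div X → WithBot ℕ
  kod_nonneg : ∀ X D, 0 ≤ kod X D ↔ eff X D
  kod_zero : ∀ X, kod X 0 = 0
  kod_smul : ∀ X (c : ℚ) D, 0 < c → kod X (c • D) = kod X D
  kod_le_nu : ∀ X D, kod X D ≤ nu X D
  nu_le_dim : ∀ X D, nu X D ≤ dim X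
  nu_mono : ∀ X D D', psef X (D' - D) → nu X D ≤ nu X D'
  psef_smul : ∀ X (c : ℚ) D, 0 < c → psef X D → psef X (c • D)
  psef_add : ∀ X D D', psef X D → eff X D' → psef X (D + D')
  big : ∀ X D D', kod X D = dim X → psef X D' → kod X (D + D') = dim X
  big_of_nu : ∀ X D, nu X D = dim X → kod X D = dim X
  nakayama : ∀ X, klt X → nu X (K X) = 0 → kod X (K X) = 0
  Fib : Type
  tot : Fib → Pair
  gen : Fib → Pair
  bdim : Fib → ℕ
  H : ∀ F, Div (tot F)
  H_eff : ∀ F, eff (tot F) (H F)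
  alb : Fib → Prop
  klt_gen : ∀ F, klt (gen F)
  dim_gen : ∀ F, dim (gen F) + bdim F = dim (tot F)
  psef_gen : ∀ F, psef (tot F) (K (tot F)) → psef (gen F) (K (gen F))
  eff_gen : ∀ F, eff (tot F) (K (tot F)) → eff (gen F) (K (gen F))
  canonical : ∀ F, psef (tot F) (K (tot F)) → kod (gen F) (K (gen F)) = nu (gen F) (K (gen F)) →
    ∃ (C : Pair) (B : Div C) (c : ℚ), klt C ∧ psef C (K C) ∧
      (dim C : WithBot ℕ) = kod (gen F) (K (gen F)) + bdim F ∧
      kod C (K C) = kod (tot F) (K (tot F)) ∧ nu C (K C) = nu (tot F) (K (tot F)) ∧ 0 < c ∧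
      kod C (K C + c • B) = dim C ∧ (psef (tot F) (K (tot F) - H F) → psef C (K C - B))
  hu : ∀ F, alb F → psef (tot F) (K (tot F)) → kod (gen F) (K (gen F)) = nu (gen F) (K (gen F)) →
    kod (tot F) (K (tot F)) = nu (tot F) (K (tot F))
  Iit : ∀ X, Div X → Fib → Prop
  iit_ex : ∀ X A, klt X → eff X A → ∃ F, Iit X A F
  iit : ∀ X A F, Iit X A F → kod X A = bdim F ∧ dim (tot F) = dim X ∧
    kod (tot F) (K (tot F)) = kod X (K X) ∧ nu (tot F) (K (tot F)) = nu X (K X) ∧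
    (psef X (K X - A) → psef (tot F) (K (tot F) - H F))
  compl : ∀ X, Div X → Pair → Prop
  compl_nu : ∀ X E U, compl X E U → psef X (K X - E) → nu U (K U) ≤ nu X (K X)
  iit_compl : ∀ X E U, klt X → psef X (K X) → compl X E U → 0 ≤ kod U (K U) →
    ∃ F P, kod U (K U) = bdim F ∧ dim (tot F) = dim X ∧
      kod (tot F) (K (tot F)) = kod X (K X) ∧ nu (tot F) (K (tot F)) = nu X (K X) ∧
      psef (tot F) (K (tot F)) ∧ dim P = dim (gen F) ∧ kod P (K P) = 0 ∧
      nu (gen F) (K (gen F)) ≤ nu P (K P)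
  abundance_three : ∀ X, klt X → dim X < 4 → psef X (K X) → kod X (K X) = nu X (K X)
  nonvanishing : ∀ n, (∀ X, smooth X → dim X ≤ n → psef X (K X) → eff X (K X)) →
    ∀ X, klt X → dim X ≤ n → psef X (K X) → eff X (K X)
  LC : Type
  ldim : LC → ℕ
  lkod : LC → WithBot ℕ
  lnu : LC → WithBot ℕ
  nef : LC → Prop
  semi : LC → Prop
  covered : LC → Prop
  support : ∀ X, eff X (K X) → ∃ Y, ldim Y = dim X ∧ lkod Y = kod X (K X) ∧ lnu Y = nu X (K X)
  minimal : ∀ Y, (∀ X, klt X → dim X < ldim Y → psef X (K X) → kod X (K X) = nu X (K X)) →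
    ∃ Y', nef Y' ∧ ldim Y' = ldim Y ∧ lkod Y' = lkod Y ∧ lnu Y' = lnu Y
  slc : ∀ Y, nef Y →
    (∀ X, klt X → dim X < ldim Y → psef X (K X) → kod X (K X) = nu X (K X)) → semi Y
  nbhd : ∀ Y, nef Y → semi Y → FormalNbhd
  Fam : LC → Type
  family : ∀ Y h h', (nbhd Y h h').Extends → Nonempty (Fam Y)
  hilbert : ∀ Y, nef Y → Fam Y → covered Y
  reduction : ∀ Y, nef Y → covered Y → ∃ (X : Pair) (A : Div X), lnu Y = dim X ∧
    nu X A = lnu Y ∧ kod X A = lkod Y

/-- `G` is a very general fibre of the Iitaka fibration of `A`, or a very general fibre of a fibration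
of such a fibre over a variety of maximal Albanese dimension. -/
def Theory.Over (T : Theory) (X : T.Pair) (A : T.Div X) (G : T.Pair) : Prop :=
  ∃ F, T.Iit X A F ∧ (G = T.gen F ∨ ∃ F', T.alb F' ∧ T.tot F' = T.gen F ∧ G = T.gen F')

/-- There is an effective divisor `E` on `G` whose complement `U` has log Kodaira dimension `κ(U) ≥ 0`
with `dim G ≤ κ(U) + m + 1`, such that either `K_G - E` is pseudo-effective or `κ(U) ≤ m`. -/
def Theory.Open (T : Theory) (m : ℕ) (G : T.Pair) : Prop :=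
  ∃ (E : T.Div G) (U : T.Pair), T.compl G E U ∧ 0 ≤ T.kod U (T.K U) ∧
    (T.dim G : WithBot ℕ) ≤ T.kod U (T.K U) + (m + 1 : ℕ) ∧
    (T.psef G (T.K G - E) ∨ T.kod U (T.K U) ≤ m)

end Pool.NVS
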