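import Pool.Agent.H70.NVS.Conv

namespace Pool.NVS.Draft

theorem result (T : Theory) (n : ℕ)
    (h : ∀ X, T.smooth X → 4 ≤ T.dim X → T.dim X ≤ n → T.psef X (T.K X) → T.eff X (T.K X))
    (X : T.Pair) (hX : T.klt X) (A B : T.Div X) (hA : T.eff X A) (hB : T.psef X B)
    (hK : T.K X = A + B)
    (hd : (T.dim X : WithBot ℕ) ≤ T.kod X A + (max 3 n : ℕ) ∨
      ∃ G, T.Over X A G ∧ (T.dim G ≤ max 3 n ∨
        (T.dim G ≤ max 3 n + 1 ∧ 0 ≤ T.kod X (T.K X)) ∨ T.Open (max 3 n) G)) :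
    T.kod X A ≤ T.kod X (T.K X) ∧ T.kod X (T.K X) = T.nu X (T.K X) :=
  main T n h X hX A B hA hB hK hd

end Pool.NVS.Draft
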